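import Pool.Agent.K7.H17.Theta.Defs

namespace Pool.Agent.K7.H17.Theta

open SimpleGraph

universe u

variable {V : Type u} {G : SimpleGraph V}

lemma wlen_nil (w : Sym2 V → ℝ) (u : V) : wlen w (Walk.nil : G.Walk u u) = 0 := by
  simp [wlen]

lemma wlen_cons (w : Sym2 V → ℝ) {u v x : V} (h : G.Adj u v) (p : G.Walk v x) :
    wlen w (Walk.cons h p) = w s(u, v) + wlen w p := by
  simp [wlen]

lemma wlen_append (w : Sym2 V → ℝ) {u v x : V} (p : G.Walk u v) (q : G.Walk v x) :
    wlen w (p.append q) = wlen w p + wlen w q := by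
  simp [wlen]

lemma wlen_reverse (w : Sym2 V → ℝ) {u v : V} (p : G.Walk u v) :
    wlen w p.reverse = wlen w p := by
  simp only [wlen, Walk.edges_reverse, List.map_reverse, List.sum_reverse]

namespace PathSystem

variable (P : PathSystem G)

/-- the second vertex of the path from `u` to `v` -/
def nx (u v : V) : V := (P.path u v).getVert 1

/-- `z` lies on the path from `u` to `v` -/
def Btw (u z v : V) : Prop := z ∈ (P.path u v).support

/-- weight of the path from `u` to `v` -/
noncomputable def D (w : Sym2 V → ℝ) (u v : V) : ℝ := wlen w (P.path u v)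

lemma path_self (u : V) : P.path u u = Walk.nil :=
  by
  have h := Walk.isPath_iff_nil.1 (P.isPath u u)
  exact Walk.eq_nil_iff_nil.2 h

lemma D_self (w : Sym2 V → ℝ) (u : V) : P.D w u u = 0 := by
  simp [D, path_self, wlen_nil]

lemma D_symm (w : Sym2 V → ℝ) (u v : V) : P.D w u v = P.D w v u := by
  rw [D, D, P.symm u v, wlen_reverse]

lemma btw_left (u v : V) : P.Btw u u v := Walk.start_mem_support _

lemma btw_right (u v : V) : P.Btw u v v := Walk.end_mem_support _

lemma btw_symm {u z v : V} (h : P.Btw u z v) : P.Btw v z u := by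
  unfold Btw at *
  rw [P.symm u v, Walk.support_reverse]
  simpa using h

lemma btw_self {u z : V} (h : P.Btw u z u) : z = u := by
  unfold Btw at h
  rw [path_self] at h
  simpa using h

variable {P}

lemma path_cons (hc : P.Consistent) {u v : V} (h : u ≠ v) :
    ∃ ha : G.Adj u (P.nx u v), P.path u v = Walk.cons ha (P.path (P.nx u v) v) := by
  generalize hp : P.path u v = p
  cases p with
  | nil => exact absurd rfl h
  | @cons _ x _ ha q =>
    have hx : P.nx u v = x := by
      unfold nx; rw [hp]; simp
    have : P.path x v = q := by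
      apply hc u v x v (Walk.cons ha Walk.nil) q Walk.nil
      rw [hp]; simp
    subst hx
    exact ⟨ha, by rw [this]⟩

lemma path_append [DecidableEq V] (hc : P.Consistent) {u z v : V} (h : P.Btw u z v) :
    P.path u v = (P.path u z).append (P.path z v) := by
  have h1 := Walk.take_spec (P.path u v) h
  have h2 : P.path u z = (P.path u v).takeUntil z h := by
    apply hc u v u z Walk.nil _ ((P.path u v).dropUntil z h)
    simp
  have h3 : P.path z v = (P.path u v).dropUntil z h := by
    apply hc u v z v ((P.path u v).takeUntil z h) _ Walk.nil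
    simp
  rw [h2, h3, h1]

lemma nx_adj (hc : P.Consistent) {u v : V} (h : u ≠ v) : G.Adj u (P.nx u v) :=
  (path_cons hc h).1

lemma D_cons (hc : P.Consistent) (w : Sym2 V → ℝ) {u v : V} (h : u ≠ v) :
    P.D w u v = w s(u, P.nx u v) + P.D w (P.nx u v) v := by
  obtain ⟨ha, hp⟩ := path_cons hc h
  unfold D
  conv_lhs => rw [hp]
  rw [wlen_cons]

lemma D_append (hc : P.Consistent) (w : Sym2 V → ℝ) {u z v : V} (h : P.Btw u z v) :
    P.D w u v = P.D w u z + P.D w z v := by
  classical
  unfold D
  rw [path_append hc h, wlen_append]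

lemma btw_nx (hc : P.Consistent) {u v : V} (h : u ≠ v) : P.Btw u (P.nx u v) v := by
  obtain ⟨ha, hp⟩ := path_cons hc h
  unfold Btw
  rw [hp]
  simp

/-- not backwards -/
lemma not_back (hc : P.Consistent) {u v : V} (h : u ≠ v) : ¬ P.Btw (P.nx u v) u v := by
  obtain ⟨ha, hp⟩ := path_cons hc h
  have := P.isPath u v
  rw [hp, Walk.cons_isPath_iff] at this
  exact this.2

lemma btw_tail (hc : P.Consistent) {u z v : V} (h : u ≠ v) (hz : P.Btw u z v) (hzu : z ≠ u) :
    P.Btw (P.nx u v) z v := by
  obtain ⟨ha, hp⟩ := path_cons hc h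
  unfold Btw at hz
  rw [hp, Walk.support_cons, List.mem_cons] at hz
  exact hz.resolve_left hzu

lemma btw_step (hc : P.Consistent) {u z v : V} (h : u ≠ v) (hz : P.Btw (P.nx u v) z v) :
    P.Btw u z v := by
  obtain ⟨ha, hp⟩ := path_cons hc h
  unfold Btw
  rw [hp, Walk.support_cons, List.mem_cons]
  exact Or.inr hz

lemma nx_eq_of_btw (hc : P.Consistent) {u z v : V} (h : P.Btw u z v) (hz : z ≠ u) :
    P.nx u z = P.nx u v := by
  classical
  have h1 := path_append hc h
  unfold nx
  rw [h1]
  obtain ⟨ha, hp⟩ := path_cons hc (Ne.symm hz)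
  rw [hp]
  simp

/-- `u … z … y … v` on the path from `u` to `v` -/
lemma btw_trans_left (hc : P.Consistent) {u z y v : V} (h1 : P.Btw u z v) (h2 : P.Btw z y v) :
    P.Btw u z y := by
  classical
  have e1 := path_append hc h1
  have e2 := path_append hc h2
  have : P.path u y = (P.path u z).append (P.path z y) := by
    apply hc u v u y Walk.nil _ (P.path y v)
    rw [e1, e2]
    simp [Walk.append_assoc]
  unfold Btw
  rw [this]
  simp

lemma btw_trans_right (hc : P.Consistent) {u z y v : V} (h1 : P.Btw u z v) (h2 : P.Btw z y v) :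
    P.Btw u y v := by
  classical
  unfold Btw at *
  rw [path_append hc h1, Walk.mem_support_append_iff]
  exact Or.inr h2

lemma btw_split (hc : P.Consistent) {u z y v : V} (h1 : P.Btw u z v) (h2 : P.Btw u y v) :
    P.Btw u y z ∨ P.Btw z y v := by
  classical
  unfold Btw at *
  rw [path_append hc h1, Walk.mem_support_append_iff] at h2
  exact h2

/-- if the second vertex of the path from `u` to `v` is `v`, then also backwards -/
lemma nx_edge_symm (hc : P.Consistent) {u v : V} (h : u ≠ v) (h1 : P.nx u v = v) :
    P.nx v u = u := by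
  obtain ⟨ha, hp⟩ := path_cons hc h
  have h2 : P.path v u = (P.path u v).reverse := P.symm u v
  have h3 : P.Btw v (P.nx v u) u := btw_nx hc (Ne.symm h)
  have h4 := btw_symm P h3
  unfold Btw at h4
  rw [hp, Walk.support_cons, List.mem_cons] at h4
  rcases h4 with h4 | h4
  · exact h4
  · exfalso
    have h5 : P.Btw (P.nx u v) (P.nx v u) v := h4
    rw [h1] at h5
    have h6 := btw_self P h5
    have h7 := nx_adj hc (Ne.symm h)
    rw [h6] at h7
    exact G.loopless.irrefl _ h7

lemma not_both (hc : P.Consistent) {x s t : V} (hst : s ≠ t) (h1 : P.Btw x s t)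
    (h2 : P.Btw x t s) : False := by
  classical
  have e1 := path_append hc h1
  have e2 := path_append hc h2
  have l1 := congrArg Walk.length e1
  have l2 := congrArg Walk.length e2
  rw [Walk.length_append] at l1 l2
  have : (P.path s t).length = 0 := by omega
  exact hst (Walk.eq_of_length_eq_zero this)

/-- the local criterion -/
lemma induces_of_local (w : Sym2 V → ℝ)
    (h : ∀ x y v : V, G.Adj x y → P.D w x v ≤ w s(x, y) + P.D w y v) : Induces w P := by
  have key : ∀ (u v : V) (q : G.Walk u v), P.D w u v ≤ wlen w q := by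
    intro u v q
    induction q with
    | nil => rw [D_self, wlen_nil]
    | @cons a b c ha q ih =>
      rw [wlen_cons]
      have h1 := h a b c ha
      linarith
  intro u v q _
  exact key u v q

end PathSystem

end Pool.Agent.K7.H17.Theta
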