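import Pool.Agent.K7.H17.Theta.Basic

namespace Pool.Agent.K7.H17.Theta

open SimpleGraph

universe u

variable {V : Type u} {G : SimpleGraph V}

namespace PathSystem

variable {P : PathSystem G}

lemma chain_run (hc : P.Consistent) {v : V} (B : ℕ → V) (m : ℕ) (hv : ∀ l < m, v ≠ B l)
    (h0 : 0 < m → P.nx (B 0) v = B 1)
    (hn : ∀ l, 0 < l → l < m → ∀ x, G.Adj (B l) x → x = B (l - 1) ∨ x = B (l + 1)) :
    ∀ l < m, P.nx (B l) v = B (l + 1) := by
  intro l
  induction l with
  | zero => intro h; exact h0 h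
  | succ l ih =>
    intro h
    have h1 := ih (by omega)
    have h2 := hv l (by omega)
    have h3 := hv (l + 1) h
    have h4 := nx_adj hc (Ne.symm h3)
    rcases hn (l + 1) (by omega) h _ h4 with h5 | h5
    · exfalso
      have h6 := btw_nx hc (Ne.symm h3)
      rw [h5] at h6
      have h7 := not_back hc (Ne.symm h2)
      rw [h1] at h7
      exact h7 (by simpa using h6)
    · exact h5

lemma chain_btw (hc : P.Consistent) {v : V} (B : ℕ → V) (m : ℕ) (hv : ∀ l < m, v ≠ B l)
    (h : ∀ l < m, P.nx (B l) v = B (l + 1)) : ∀ l ≤ m, P.Btw (B 0) (B l) v := by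
  have key : ∀ l ≤ m, ∀ z, P.Btw (B l) z v → P.Btw (B 0) z v := by
    intro l
    induction l with
    | zero => intro _ z hz; exact hz
    | succ l ih =>
      intro hl z hz
      apply ih (by omega)
      apply btw_step hc (Ne.symm (hv l (by omega)))
      rw [h l (by omega)]
      exact hz
  intro l hl
  exact key l hl _ (P.btw_left _ _)

lemma chain_tail (hc : P.Consistent) {v z : V} (B : ℕ → V) (m : ℕ) (hv : ∀ l < m, v ≠ B l)
    (h : ∀ l < m, P.nx (B l) v = B (l + 1)) (hz : ∀ l < m, z ≠ B l) (hb : P.Btw (B 0) z v) :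
    P.Btw (B m) z v := by
  have key : ∀ l ≤ m, P.Btw (B l) z v := by
    intro l
    induction l with
    | zero => intro _; exact hb
    | succ l ih =>
      intro hl
      have := btw_tail hc (Ne.symm (hv l (by omega))) (ih (by omega)) (hz l (by omega))
      rwa [h l (by omega)] at this
  exact key m le_rfl

lemma chain_D (hc : P.Consistent) (w : Sym2 V → ℝ) {v : V} (B : ℕ → V) (g : ℕ → ℝ) (m : ℕ)
    (hv : ∀ l < m, v ≠ B l)
    (h : ∀ l < m, P.nx (B l) v = B (l + 1))
    (hw : ∀ l < m, w s(B l, B (l + 1)) = g (l + 1) - g l) :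
    P.D w (B 0) v = g m - g 0 + P.D w (B m) v := by
  have key : ∀ l ≤ m, P.D w (B 0) v = g l - g 0 + P.D w (B l) v := by
    intro l
    induction l with
    | zero => intro _; ring
    | succ l ih =>
      intro hl
      rw [ih (by omega), D_cons hc w (Ne.symm (hv l (by omega))), h l (by omega),
        hw l (by omega)]
      ring
  exact key m le_rfl

end PathSystem

/-- The structure of a theta graph with arms `A a 0 = s, …, A a (n a) = t`. -/
structure Arms (G : SimpleGraph V) (n : Fin 3 → ℕ) (A : Fin 3 → ℕ → V) (s t : V) : Prop where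
  two : ∀ a, 2 ≤ n a
  zero : ∀ a, A a 0 = s
  last : ∀ a, A a (n a) = t
  st : s ≠ t
  ne_s : ∀ a i, 0 < i → i < n a → A a i ≠ s
  ne_t : ∀ a i, 0 < i → i < n a → A a i ≠ t
  inj : ∀ a i b j, 0 < i → i < n a → 0 < j → j < n b → A a i = A b j → a = b ∧ i = j
  adj : ∀ a i, i < n a → G.Adj (A a i) (A a (i + 1))
  nbr : ∀ a i x, 0 < i → i < n a → G.Adj (A a i) x → x = A a (i - 1) ∨ x = A a (i + 1)
  nbr_s : ∀ x, G.Adj s x → ∃ b, x = A b 1
  nbr_t : ∀ x, G.Adj t x → ∃ b, x = A b (n b - 1)
  cover : ∀ x, x = s ∨ x = t ∨ ∃ a i, 0 < i ∧ i < n a ∧ x = A a i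

namespace Arms

variable {n : Fin 3 → ℕ} {A : Fin 3 → ℕ → V} {s t : V}

lemma rev (h : Arms G n A s t) : Arms G n (fun a i => A a (n a - i)) t s where
  two := h.two
  zero a := by simpa using h.last a
  last a := by simpa using h.zero a
  st := h.st.symm
  ne_s a i h1 h2 := h.ne_t a _ (by omega) (by omega)
  ne_t a i h1 h2 := h.ne_s a _ (by omega) (by omega)
  inj a i b j h1 h2 h3 h4 h5 := by
    obtain ⟨e1, e2⟩ := h.inj a _ b _ (by omega) (by omega) (by omega) (by omega) h5
    subst e1
    exact ⟨rfl, by omega⟩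
  adj a i hi := by
    have := h.adj a (n a - (i + 1)) (by omega)
    have e : n a - (i + 1) + 1 = n a - i := by omega
    rw [e] at this
    exact this.symm
  nbr a i x h1 h2 h3 := by
    rcases h.nbr a (n a - i) x (by omega) (by omega) h3 with h4 | h4
    · right
      rw [h4]; congr 1
    · left
      rw [h4]; congr 1; omega
  nbr_s x hx := by
    obtain ⟨b, hb⟩ := h.nbr_t x hx
    exact ⟨b, hb⟩
  nbr_t x hx := by
    obtain ⟨b, hb⟩ := h.nbr_s x hx
    refine ⟨b, ?_⟩
    rw [hb]; congr 1
    have := h.two b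
    omega
  cover x := by
    rcases h.cover x with h1 | h1 | ⟨a, i, h1, h2, h3⟩
    · exact Or.inr (Or.inl h1)
    · exact Or.inl h1
    · refine Or.inr (Or.inr ⟨a, n a - i, by omega, by omega, ?_⟩)
      rw [h3]; congr 1; omega

lemma inj_arm (h : Arms G n A s t) {a : Fin 3} {i j : ℕ} (hi : i ≤ n a) (hj : j ≤ n a)
    (e : A a i = A a j) : i = j := by
  rcases Nat.eq_zero_or_pos i with hi0 | hi0
  · rcases Nat.eq_zero_or_pos j with hj0 | hj0
    · omega
    · rcases Nat.lt_or_ge j (n a) with hj1 | hj1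
      · exfalso; apply h.ne_s a j hj0 hj1
        rw [← e, hi0, h.zero]
      · exfalso; apply h.st
        have : j = n a := by omega
        rw [this, hi0, h.zero, h.last] at e
        exact e
  · rcases Nat.lt_or_ge i (n a) with hi1 | hi1
    · rcases Nat.eq_zero_or_pos j with hj0 | hj0
      · exfalso; apply h.ne_s a i hi0 hi1
        rw [e, hj0, h.zero]
      · rcases Nat.lt_or_ge j (n a) with hj1 | hj1
        · exact (h.inj a i a j hi0 hi1 hj0 hj1 e).2
        · exfalso; apply h.ne_t a i hi0 hi1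
          have : j = n a := by omega
          rw [e, this, h.last]
    · have : i = n a := by omega
      rcases Nat.eq_zero_or_pos j with hj0 | hj0
      · exfalso; apply h.st
        rw [this, hj0, h.zero, h.last] at e
        exact e.symm
      · rcases Nat.lt_or_ge j (n a) with hj1 | hj1
        · exfalso; apply h.ne_t a j hj0 hj1
          rw [← e, this, h.last]
        · omega

/-- `v` is not an interior vertex of arm `a` -/
def NotInt (n : Fin 3 → ℕ) (A : Fin 3 → ℕ → V) (a : Fin 3) (v : V) : Prop :=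
  ∀ l, 0 < l → l < n a → v ≠ A a l

end Arms

end Pool.Agent.K7.H17.Theta
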