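import Pool.Agent.K7.H17.Theta.Run

namespace Pool.Agent.K7.H17.Theta

open SimpleGraph

universe u

variable {V : Type u} {G : SimpleGraph V} {P : PathSystem G}
  {n : Fin 3 → ℕ} {A : Fin 3 → ℕ → V} {s t : V}

namespace Arms

lemma exists_k (hA : Arms G n A s t) (hc : P.Consistent) : ∃ k, P.nx s t = A k 1 :=
  hA.nbr_s _ (PathSystem.nx_adj hc hA.st)

lemma k_up (hA : Arms G n A s t) (hc : P.Consistent) {k : Fin 3} (hk : P.nx s t = A k 1) :
    ∀ l, l < n k → P.nx (A k l) t = A k (l + 1) := by
  intro l hl
  refine hA.up_nx hc (a := k) (i := 0) (m := n k) (v := t) le_rfl ?_ ?_ l (by omega) hl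
  · intro l' h1 h2 e
    rw [← hA.last k] at e
    have := hA.inj_arm le_rfl h2.le e
    omega
  · intro _
    rw [hA.zero]; simpa using hk

lemma k_btw (hA : Arms G n A s t) (hc : P.Consistent) {k : Fin 3} (hk : P.nx s t = A k 1) :
    ∀ l, l ≤ n k → P.Btw s (A k l) t := by
  intro l hl
  have := hA.up_btw hc (a := k) (i := 0) (m := n k) (v := t) le_rfl ?_ ?_ l (by omega) hl
  · rwa [hA.zero] at this
  · intro l' h1 h2 e
    rw [← hA.last k] at e
    have := hA.inj_arm le_rfl h2.le e
    omega
  · intro _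
    rw [hA.zero]; simpa using hk

lemma k_rev (hA : Arms G n A s t) (hc : P.Consistent) {k : Fin 3} (hk : P.nx s t = A k 1) :
    P.nx t s = A k (n k - 1) := by
  have h2 := hA.two k
  have h1 := hA.k_btw hc hk (n k - 1) (by omega)
  have h3 := hA.k_up hc hk (n k - 1) (by omega)
  have e : n k - 1 + 1 = n k := by omega
  rw [e, hA.last] at h3
  have hne : A k (n k - 1) ≠ t := hA.ne_t k _ (by omega) (by omega)
  have h4 := PathSystem.nx_edge_symm hc hne h3
  have h5 := PathSystem.nx_eq_of_btw hc (P.btw_symm h1) hne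
  rw [← h5, h4]

lemma k_not_ns (hA : Arms G n A s t) (hc : P.Consistent) {k : Fin 3} (hk : P.nx s t = A k 1)
    {i : ℕ} (h0 : 0 < i) (hi : i < n k) : ¬ P.Btw (A k i) s t := by
  intro h
  have h1 := hA.ns_down hc h0 hi h
  rw [hA.k_up hc hk i hi] at h1
  have := hA.inj_arm (by omega) (by omega) h1
  omega

lemma k_not_nt (hA : Arms G n A s t) (hc : P.Consistent) {k : Fin 3} (hk : P.nx s t = A k 1)
    {i : ℕ} (h0 : 0 < i) (hi : i < n k) : ¬ P.Btw (A k i) t s := by
  intro h
  have := hA.rev.k_not_ns hc (k := k) (by simpa using hA.k_rev hc hk) (i := n k - i) (by omega) (by omega)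
  have e : n k - (n k - i) = i := by omega
  simp only [e] at this
  exact this h

lemma ns_mono (hA : Arms G n A s t) (hc : P.Consistent) {a : Fin 3} {i' i : ℕ}
    (h1 : i' ≤ i) (hi : i < n a) (h : P.Btw (A a i) s t) : P.Btw (A a i') s t := by
  rcases Nat.eq_zero_or_pos i' with h0 | h0
  · rw [h0, hA.zero]; exact P.btw_left _ _
  · have h2 := hA.ns_down hc (by omega) hi h
    have h3 := hA.down_nx hc (a := a) (i := i) (m := 0) (v := t) hi.le
      (fun l h1 h2 => hA.notInt_t a l h1 (by omega)) (fun _ => h2) i' h0 h1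
    exact hA.down_s hc h0 (by omega) (hA.notInt_t a) h3

lemma nt_mono (hA : Arms G n A s t) (hc : P.Consistent) {a : Fin 3} {i i' : ℕ}
    (h1 : i ≤ i') (h0 : 0 < i) (hi : i' ≤ n a) (h : P.Btw (A a i) t s) : P.Btw (A a i') t s := by
  have := hA.rev.ns_mono hc (a := a) (i' := n a - i') (i := n a - i) (by omega) (by omega)
    (by
      have e : n a - (n a - i) = i := by omega
      simpa [e] using h)
  have e : n a - (n a - i') = i' := by omega
  simpa [e] using this

/-- the path between the `i`-th and the `j`-th vertex of arm `a` leaves the arm -/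
def Around (P : PathSystem G) (A : Fin 3 → ℕ → V) (s t : V) (a : Fin 3) (i j : ℕ) : Prop :=
  P.Btw (A a i) s (A a j) ∧ P.Btw (A a i) t (A a j)

lemma Around.symm' {a : Fin 3} {i j : ℕ} (h : Around P A s t a i j) : Around P A t s a j i :=
  ⟨P.btw_symm h.2, P.btw_symm h.1⟩

lemma around_left (hA : Arms G n A s t) (hc : P.Consistent) {a : Fin 3} {i j : ℕ}
    (h0 : 0 < i) (hij : i < j) (hj : j ≤ n a) (h : P.Btw (A a i) s (A a j)) :
    P.nx (A a i) (A a j) = A a (i - 1) := by
  have hne : ∀ l, l < j → A a j ≠ A a l := by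
    intro l hl e
    have := hA.inj_arm hj (by omega) e
    omega
  rcases hA.up_or_down hc h0 (by omega) (hne i hij) with h1 | h1
  · exact h1
  · exfalso
    have h2 := hA.up_tail hc (a := a) (i := i) (m := j) (v := A a j) (z := s) hij.le hj
      (fun l h1 h2 => hne l h2) (fun _ => h1)
      (fun l h1 h2 => Ne.symm (hA.ne_s a l (by omega) (by omega))) h
    have h3 := P.btw_self h2
    rcases Nat.lt_or_ge j (n a) with h4 | h4
    · exact hA.ne_s a j (by omega) h4 h3.symm
    · have : j = n a := by omega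
      rw [this, hA.last] at h3
      exact hA.st h3

lemma around_step (hA : Arms G n A s t) (hc : P.Consistent) {a : Fin 3} {i j : ℕ}
    (h0 : 0 < i) (hij : i < j) (hj : j ≤ n a) (h : Around P A s t a i j) :
    Around P A s t a (i - 1) j := by
  have h1 := hA.around_left hc h0 hij hj h.1
  have hne : A a i ≠ A a j := by
    intro e
    have := hA.inj_arm (by omega) hj e
    omega
  have h2 := PathSystem.btw_tail hc hne h.1 (Ne.symm (hA.ne_s a i h0 (by omega)))
  have h3 := PathSystem.btw_tail hc hne h.2 (Ne.symm (hA.ne_t a i h0 (by omega)))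
  rw [h1] at h2 h3
  exact ⟨h2, h3⟩

lemma around_mono_left (hA : Arms G n A s t) (hc : P.Consistent) {a : Fin 3} {i' i j : ℕ}
    (h1 : i' ≤ i) (hij : i < j) (hj : j ≤ n a) (h : Around P A s t a i j) :
    Around P A s t a i' j := by
  obtain ⟨d, rfl⟩ := Nat.exists_eq_add_of_le h1
  induction d with
  | zero => simpa using h
  | succ d ih =>
    apply ih (by omega) (by omega)
    have := hA.around_step hc (i := i' + (d + 1)) (by omega) hij hj h
    simpa using this

lemma around_mono_right (hA : Arms G n A s t) (hc : P.Consistent) {a : Fin 3} {i j j' : ℕ}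
    (h1 : j ≤ j') (hij : i < j) (hj : j' ≤ n a) (h : Around P A s t a i j) :
    Around P A s t a i j' := by
  have h2 := h.symm'
  have := hA.rev.around_mono_left hc (a := a) (i' := n a - j') (i := n a - j) (j := n a - i)
    (by omega) (by omega) (by omega)
    (by
      have e1 : n a - (n a - j) = j := by omega
      have e2 : n a - (n a - i) = i := by omega
      simpa [Around, e1, e2] using h2)
  have e1 : n a - (n a - j') = j' := by omega
  have e2 : n a - (n a - i) = i := by omega
  have h3 : Around P A t s a j' i := by simpa [Around, e1, e2] using this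
  exact h3.symm'

lemma around_ns (hA : Arms G n A s t) (hc : P.Consistent) {a : Fin 3} {i j : ℕ}
    (hij : i < j) (hj : j ≤ n a) (h : Around P A s t a i j) : P.Btw (A a i) s t := by
  rcases Nat.eq_zero_or_pos i with h0 | h0
  · rw [h0, hA.zero]; exact P.btw_left _ _
  · have h1 := hA.around_left hc h0 hij hj h.1
    rcases PathSystem.btw_split hc h.1 h.2 with h2 | h2
    · exfalso
      have h3 := hA.nt_up hc h0 (by omega) h2
      have h4 := PathSystem.nx_eq_of_btw hc h.1 (Ne.symm (hA.ne_s a i h0 (by omega)))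
      rw [h3, h1] at h4
      have := hA.inj_arm (by omega) (by omega) h4
      omega
    · exact PathSystem.btw_trans_left hc h.1 h2

lemma around_nt (hA : Arms G n A s t) (hc : P.Consistent) {a : Fin 3} {i j : ℕ}
    (hij : i < j) (hj : j ≤ n a) (h : Around P A s t a i j) : P.Btw (A a j) t s := by
  have h2 := h.symm'
  have := hA.rev.around_ns hc (a := a) (i := n a - j) (j := n a - i)
    (by omega) (by omega)
    (by
      have e1 : n a - (n a - j) = j := by omega
      have e2 : n a - (n a - i) = i := by omega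
      simpa [Around, e1, e2] using h2)
  have e1 : n a - (n a - j) = j := by omega
  simpa [e1] using this

lemma out_or (hA : Arms G n A s t) (hc : P.Consistent) {a : Fin 3} {i : ℕ} {v : V}
    (h0 : 0 < i) (hi : i < n a) (hv : NotInt n A a v) :
    P.Btw (A a i) s v ∨ P.Btw (A a i) t v := by
  rcases hA.up_or_down hc h0 hi (hv i h0 hi) with h | h
  · exact Or.inl (hA.down_s hc h0 hi hv h)
  · exact Or.inr (hA.up_t hc h0 hi hv h)

lemma mid_not_both (hc : P.Consistent) {x y : V} (hx : ¬ P.Btw x t s)
    (hy : ¬ P.Btw y t s) (h1 : P.Btw x s y) (h2 : P.Btw x t y) : False := by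
  rcases PathSystem.btw_split hc h1 h2 with h | h
  · exact hx h
  · exact hy (P.btw_symm h)

lemma sgn_mono (hA : Arms G n A s t) (hc : P.Consistent) {a : Fin 3} {i' i : ℕ} {v : V}
    (h0 : 0 < i') (h1 : i' ≤ i) (hi : i < n a) (hv : NotInt n A a v)
    (hx : ¬ P.Btw (A a i) t s) (hy : ¬ P.Btw v t s) (h : P.Btw (A a i) s v) :
    P.Btw (A a i') s v := by
  rcases hA.up_or_down hc (a := a) (i := i) (by omega) hi (hv i (by omega) hi) with h2 | h2
  · have h3 := hA.down_nx hc (a := a) (i := i) (m := 0) (v := v) hi.le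
      (fun l h1 h2 => hv l h1 (by omega)) (fun _ => h2) i' h0 h1
    exact hA.down_s hc h0 (by omega) hv h3
  · exact (mid_not_both hc hx hy h (hA.up_t hc (by omega) hi hv h2)).elim

end Arms

end Pool.Agent.K7.H17.Theta
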