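import Mathlib

/-!
Path systems, consistency, metrizability, theta graphs (MP_d7339e_co).
-/

namespace Pool.Agent.K7.H17.Theta

open SimpleGraph

universe u

variable {V : Type u}

/-- A path system in `G`: for every pair of vertices `u, v` one path with ends `u` and `v`
(the path from `v` to `u` is the reverse of the one from `u` to `v`). -/
structure PathSystem (G : SimpleGraph V) where
  path : ∀ u v : V, G.Walk u v
  isPath : ∀ u v : V, (path u v).IsPath
  symm : ∀ u v : V, path v u = (path u v).reverse

/-- Consistency: every subpath of a path of the system belongs to the system. -/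
def PathSystem.Consistent {G : SimpleGraph V} (P : PathSystem G) : Prop :=
  ∀ (u v x y : V) (a : G.Walk u x) (b : G.Walk x y) (c : G.Walk y v),
    P.path u v = a.append (b.append c) → P.path x y = b

/-- The total weight of the edges of a walk. -/
noncomputable def wlen {G : SimpleGraph V} (w : Sym2 V → ℝ) {u v : V} (p : G.Walk u v) : ℝ :=
  (p.edges.map w).sum

/-- `w` induces the path system `P`: every path of `P` is `w`-shortest among all paths
with the same ends. -/
def Induces {G : SimpleGraph V} (w : Sym2 V → ℝ) (P : PathSystem G) : Prop :=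
  ∀ (u v : V) (q : G.Walk u v), q.IsPath → wlen w (P.path u v) ≤ wlen w q

/-- `G` is metrizable: every consistent path system is induced by positive edge weights. -/
def Metrizable (G : SimpleGraph V) : Prop :=
  ∀ P : PathSystem G, P.Consistent →
    ∃ w : Sym2 V → ℝ, (∀ e ∈ G.edgeSet, 0 < w e) ∧ Induces w P

/-- Vertices of the theta graph with arms of `n 0`, `n 1`, `n 2` edges: the two branch
vertices `s` and `t` and, for each arm `i`, its `n i - 1` interior vertices. -/
inductive TVert (n : Fin 3 → ℕ) : Type
  | s : TVert n
  | t : TVert n
  | mid (i : Fin 3) (k : Fin (n i - 1)) : TVert n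

/-- The vertex at distance `k` from `s` along arm `i` (for `0 ≤ k ≤ n i`, `1 ≤ n i`). -/
def pt (n : Fin 3 → ℕ) (i : Fin 3) (k : ℕ) : TVert n :=
  if k = 0 then TVert.s else if h : k - 1 < n i - 1 then TVert.mid i ⟨k - 1, h⟩ else TVert.t

/-- The theta graph: two vertices `s`, `t` and three paths between them, with `n 0`, `n 1`
and `n 2` edges. Its edges join `pt n i k` and `pt n i (k + 1)` for `k < n i`. -/
def theta (n : Fin 3 → ℕ) : SimpleGraph (TVert n) :=
  SimpleGraph.fromRel (fun x y => ∃ (i : Fin 3) (k : ℕ), k < n i ∧ x = pt n i k ∧ y = pt n i (k + 1))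

end Pool.Agent.K7.H17.Theta
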