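import Pool.Agent.K7.H17.Theta.Comb

namespace Pool.Agent.K7.H17.Theta

open SimpleGraph

universe u

variable {V : Type u} {G : SimpleGraph V} {P : PathSystem G}
  {n : Fin 3 → ℕ} {A : Fin 3 → ℕ → V} {s t : V}

open Arms

/-- coordinates `f` realizing the path system `P` -/
structure Good (P : PathSystem G) (n : Fin 3 → ℕ) (A : Fin 3 → ℕ → V) (s t : V)
    (w : Sym2 V → ℝ) (f : Fin 3 → ℕ → ℝ) (X : Fin 3 → ℝ) (L : ℝ) : Prop where
  hw : ∀ a, ∀ l < n a, w s(A a l, A a (l + 1)) = f a (l + 1) / 2 - f a l / 2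
  mono : ∀ a, ∀ l < n a, f a l < f a (l + 1)
  L0 : 0 < L
  LX : ∀ a, L ≤ X a
  f0 : ∀ a, f a 0 = - X a
  fn : ∀ a, f a (n a) = X a
  st : P.D w s t = L
  ns : ∀ a i, i < n a → P.Btw (A a i) s t → f a i ≤ - L
  nt : ∀ a i, 0 < i → i ≤ n a → P.Btw (A a i) t s → L ≤ f a i
  mid : ∀ a i, 0 < i → i < n a → ¬ P.Btw (A a i) s t → ¬ P.Btw (A a i) t s →
    - L ≤ f a i ∧ f a i ≤ L
  sgn : ∀ a b i j, a ≠ b → 0 < i → i < n a → 0 < j → j < n b →
    ¬ P.Btw (A a i) s t → ¬ P.Btw (A a i) t s →
    ¬ P.Btw (A b j) s t → ¬ P.Btw (A b j) t s →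
    (P.Btw (A a i) s (A b j) → f a i + f b j ≤ 0) ∧ (P.Btw (A a i) t (A b j) → 0 ≤ f a i + f b j)
  ar1 : ∀ a i j, i < j → j ≤ n a → Around P A s t a i j → X a + L ≤ f a j - f a i
  ar2 : ∀ a i j, i < j → j ≤ n a → ¬ Around P A s t a i j → f a j - f a i ≤ X a + L

namespace Good

variable {w : Sym2 V → ℝ} {f : Fin 3 → ℕ → ℝ} {X : Fin 3 → ℝ} {L : ℝ}

lemma rev (h : Good P n A s t w f X L) :
    Good P n (fun a i => A a (n a - i)) t s w (fun a i => - f a (n a - i)) X L where
  hw a l hl := by
    have e : n a - (l + 1) + 1 = n a - l := by omega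
    have := h.hw a (n a - (l + 1)) (by omega)
    rw [e] at this
    change w s(A a (n a - l), A a (n a - (l + 1))) = _
    rw [Sym2.eq_swap, this]; ring
  mono a l hl := by
    have e : n a - (l + 1) + 1 = n a - l := by omega
    have := h.mono a (n a - (l + 1)) (by omega)
    rw [e] at this
    linarith
  L0 := h.L0
  LX := h.LX
  f0 a := by simp [h.fn]
  fn a := by simp [h.f0]
  st := by rw [P.D_symm]; exact h.st
  ns a i hi hb := by
    have := h.nt a (n a - i) (by omega) (by omega) hb
    linarith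
  nt a i h0 hi hb := by
    have := h.ns a (n a - i) (by omega) hb
    linarith
  mid a i h0 hi h1 h2 := by
    have := h.mid a (n a - i) (by omega) (by omega) h2 h1
    constructor <;> linarith [this.1, this.2]
  sgn a b i j hab h0 hi h0' hj h1 h2 h3 h4 := by
    have := h.sgn a b (n a - i) (n b - j) hab (by omega) (by omega) (by omega) (by omega) h2 h1 h4 h3
    constructor
    · intro h5; linarith [this.2 h5]
    · intro h5; linarith [this.1 h5]
  ar1 a i j hij hj hb := by
    have := h.ar1 a (n a - j) (n a - i) (by omega) (by omega)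
      (Arms.Around.symm' (A := A) (s := t) (t := s) (by simpa [Around] using hb))
    linarith
  ar2 a i j hij hj hb := by
    have := h.ar2 a (n a - j) (n a - i) (by omega) (by omega) (by
      intro hb'
      apply hb
      have := Arms.Around.symm' hb'
      simpa [Around] using this)
    linarith

lemma w_nonneg (h : Good P n A s t w f X L) {a : Fin 3} {l : ℕ} (hl : l < n a) :
    0 < w s(A a l, A a (l + 1)) := by
  rw [h.hw a l hl]
  linarith [h.mono a l hl]

/-- `D s v - D t v` for `v` with `Btw v s t` -/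
lemma h_ns (h : Good P n A s t w f X L) (hc : P.Consistent) {v : V} (hv : P.Btw v s t) :
    P.D w s v - P.D w t v = - L := by
  have := PathSystem.D_append hc w hv
  rw [P.D_symm w s v, P.D_symm w t v, this, h.st]; ring

lemma h_nt (h : Good P n A s t w f X L) (hc : P.Consistent) {v : V} (hv : P.Btw v t s) :
    P.D w s v - P.D w t v = L := by
  have := PathSystem.D_append hc w hv
  rw [P.D_symm w s v, P.D_symm w t v, this, P.D_symm w t s, h.st]; ring

/-- `D s v` for `v` going down to `s` -/
lemma D_down (h : Good P n A s t w f X L) (hA : Arms G n A s t) (hc : P.Consistent)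
    {b : Fin 3} {j : ℕ} (h0 : 0 < j) (hj : j < n b) (h1 : P.nx (A b j) s = A b (j - 1)) :
    P.D w s (A b j) = (f b j + X b) / 2 := by
  rw [P.D_symm]
  have := hA.down_D hc w (a := b) (fun l => f b l / 2) (i := j) (m := 0) (v := s)
    (by omega) hj.le (fun l h1 h2 => hA.notInt_s b l h1 (by omega)) (fun _ => h1) (h.hw b)
  rw [this, hA.zero, P.D_self, h.f0]; ring

lemma h_mid (h : Good P n A s t w f X L) (hA : Arms G n A s t) (hc : P.Consistent)
    {b : Fin 3} {j : ℕ} (h0 : 0 < j) (hj : j < n b)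
    (h1 : ¬ P.Btw (A b j) s t) (h2 : ¬ P.Btw (A b j) t s) :
    P.D w s (A b j) = (f b j + X b) / 2 ∧ P.D w t (A b j) = (X b - f b j) / 2 := by
  constructor
  · rcases hA.up_or_down hc h0 hj (Ne.symm (hA.ne_s b j h0 hj)) with h3 | h3
    · exact h.D_down hA hc h0 hj h3
    · exact (h2 (hA.up_t hc h0 hj (hA.notInt_s b) h3)).elim
  · rcases hA.up_or_down hc h0 hj (Ne.symm (hA.ne_t b j h0 hj)) with h3 | h3
    · exact (h1 (hA.down_s hc h0 hj (hA.notInt_t b) h3)).elim
    · have e1 : n b - (n b - j) = j := by omega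
      have e2 : n b - (n b - j - 1) = j + 1 := by omega
      have := h.rev.D_down hA.rev hc (b := b) (j := n b - j) (by omega) (by omega)
        (by simpa [e1, e2] using h3)
      simp only [e1] at this
      rw [this]; ring

lemma C1down (h : Good P n A s t w f X L) (hA : Arms G n A s t) (hc : P.Consistent)
    {a : Fin 3} {i : ℕ} (h0 : 0 < i) (hi : i < n a) {v : V} (hv : NotInt n A a v)
    (hd : P.nx (A a i) v = A a (i - 1)) :
    f a i + (P.D w s v - P.D w t v) ≤ 0 := by
  have hs : P.Btw (A a i) s v := hA.down_s hc h0 hi hv hd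
  have hxt : ¬ P.Btw (A a i) t s := by
    intro hh
    have h1 := hA.nt_up hc h0 hi hh
    have h2 := PathSystem.nx_eq_of_btw hc hs (Ne.symm (hA.ne_s a i h0 hi))
    rw [h1, hd] at h2
    have := hA.inj_arm (by omega) (by omega) h2
    omega
  have hL := h.L0
  have hfL : f a i ≤ L := by
    by_cases h1 : P.Btw (A a i) s t
    · linarith [h.ns a i hi h1]
    · exact (h.mid a i h0 hi h1 hxt).2
  have hNT : P.Btw v t s → f a i + (P.D w s v - P.D w t v) ≤ 0 := by
    intro hvt
    have h1 : P.Btw (A a i) s t := PathSystem.btw_trans_left hc hs (P.btw_symm hvt)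
    rw [h.h_nt hc hvt]
    linarith [h.ns a i hi h1]
  rcases hA.cover v with rfl | rfl | ⟨b, j, hj0, hj, rfl⟩
  · rw [h.h_ns hc (P.btw_left _ _)]; linarith
  · exact hNT (P.btw_left _ _)
  · by_cases h3 : P.Btw (A b j) s t
    · rw [h.h_ns hc h3]; linarith
    · by_cases h4 : P.Btw (A b j) t s
      · exact hNT h4
      · obtain ⟨e1, e2⟩ := h.h_mid hA hc hj0 hj h3 h4
        rw [e1, e2]
        have h5 := h.mid b j hj0 hj h3 h4
        by_cases h1 : P.Btw (A a i) s t
        · have := h.ns a i hi h1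
          linarith [h5.2]
        · have hab : a ≠ b := by
            rintro rfl
            exact hv j hj0 hj rfl
          have := (h.sgn a b i j hab h0 hi hj0 hj h1 hxt h3 h4).1 hs
          linarith

lemma abs_h (h : Good P n A s t w f X L) (hA : Arms G n A s t) (hc : P.Consistent) (v : V) :
    P.D w s v - P.D w t v ≤ L := by
  have hL := h.L0
  rcases hA.cover v with rfl | rfl | ⟨b, j, hj0, hj, rfl⟩
  · rw [h.h_ns hc (P.btw_left _ _)]; linarith
  · rw [h.h_nt hc (P.btw_left _ _)]
  · by_cases h3 : P.Btw (A b j) s t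
    · rw [h.h_ns hc h3]; linarith
    · by_cases h4 : P.Btw (A b j) t s
      · rw [h.h_nt hc h4]
      · obtain ⟨e1, e2⟩ := h.h_mid hA hc hj0 hj h3 h4
        rw [e1, e2]
        linarith [(h.mid b j hj0 hj h3 h4).2]

/-- Case 1, lower end -/
lemma low (h : Good P n A s t w f X L) (hA : Arms G n A s t) (hc : P.Consistent)
    {a : Fin 3} {i : ℕ} (hi : i < n a) {v : V} (hv : NotInt n A a v)
    (hd : 0 < i → P.nx (A a i) v = A a (i - 1)) :
    P.D w (A a i) v = (f a i + X a) / 2 + P.D w s v ∧
    f a i + (P.D w s v - P.D w t v) ≤ 0 := by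
  constructor
  · have := hA.down_D hc w (a := a) (fun l => f a l / 2) (i := i) (m := 0) (v := v)
      (by omega) hi.le (fun l h1 h2 => hv l h1 (by omega)) hd (h.hw a)
    rw [this, hA.zero, h.f0]; ring
  · rcases Nat.eq_zero_or_pos i with h0 | h0
    · rw [h0, h.f0]
      linarith [h.abs_h hA hc v, h.LX a]
    · exact h.C1down hA hc h0 hi hv (hd h0)

lemma lip_out (h : Good P n A s t w f X L) (hA : Arms G n A s t) (hc : P.Consistent)
    {a : Fin 3} {i : ℕ} (hi : i < n a) {v : V} (hv : NotInt n A a v) :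
    P.D w (A a i) v ≤ w s(A a i, A a (i + 1)) + P.D w (A a (i + 1)) v ∧
    P.D w (A a (i + 1)) v ≤ w s(A a i, A a (i + 1)) + P.D w (A a i) v := by
  have hw0 := h.w_nonneg hi
  by_cases h1 : v ≠ A a i ∧ P.nx (A a i) v = A a (i + 1)
  · have := PathSystem.D_cons hc w (Ne.symm h1.1)
    rw [h1.2] at this
    constructor <;> linarith
  by_cases h2 : v ≠ A a (i + 1) ∧ P.nx (A a (i + 1)) v = A a i
  · have := PathSystem.D_cons hc w (Ne.symm h2.1)
    rw [h2.2, Sym2.eq_swap] at this
    constructor <;> linarith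
  have h3 : 0 < i → P.nx (A a i) v = A a (i - 1) := by
    intro h0
    rcases hA.up_or_down hc h0 hi (hv i h0 hi) with h4 | h4
    · exact h4
    · exact (h1 ⟨hv i h0 hi, h4⟩).elim
  have h4 : i + 1 < n a → P.nx (A a (i + 1)) v = A a (i + 2) := by
    intro h0
    rcases hA.up_or_down hc (by omega) h0 (hv (i + 1) (by omega) h0) with h4 | h4
    · exact (h2 ⟨hv (i + 1) (by omega) h0, h4⟩).elim
    · exact h4
  obtain ⟨e1, c1⟩ := h.low hA hc hi hv h3
  have hvr : NotInt n (fun a i => A a (n a - i)) a v := fun l h5 h6 => hv _ (by omega) (by omega)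
  obtain ⟨e2, c2⟩ := h.rev.low hA.rev hc (a := a) (i := n a - (i + 1)) (by omega) hvr (by
    intro h5
    have e3 : n a - (n a - (i + 1)) = i + 1 := by omega
    have e4 : n a - (n a - (i + 1) - 1) = i + 2 := by omega
    simpa [e3, e4] using h4 (by omega))
  have e3 : n a - (n a - (i + 1)) = i + 1 := by omega
  simp only [e3] at e2 c2
  rw [e1, e2, h.hw a i hi]
  constructor <;> linarith

lemma lip_in_up (h : Good P n A s t w f X L) (hA : Arms G n A s t) (hc : P.Consistent)
    {a : Fin 3} {i j : ℕ} (hi : i < n a) (hj0 : 0 < j) (hji : j ≤ i) :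
    P.D w (A a i) (A a j) ≤ w s(A a i, A a (i + 1)) + P.D w (A a (i + 1)) (A a j) ∧
    P.D w (A a (i + 1)) (A a j) ≤ w s(A a i, A a (i + 1)) + P.D w (A a i) (A a j) := by
  have hw0 := h.w_nonneg hi
  have hne : ∀ l l', l ≤ n a → l' ≤ n a → l ≠ l' → A a l ≠ A a l' := by
    intro l l' h1 h2 h3 h4
    exact h3 (hA.inj_arm h1 h2 h4)
  by_cases h1 : A a j ≠ A a i ∧ P.nx (A a i) (A a j) = A a (i + 1)
  · have := PathSystem.D_cons hc w (Ne.symm h1.1)
    rw [h1.2] at this
    constructor <;> linarith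
  have hij1 : A a j ≠ A a (i + 1) := hne _ _ (by omega) (by omega) (by omega)
  by_cases h2 : P.nx (A a (i + 1)) (A a j) = A a i
  · have := PathSystem.D_cons hc w (Ne.symm hij1)
    rw [h2, Sym2.eq_swap] at this
    constructor <;> linarith
  -- the lower part
  have h3 : j < i → P.nx (A a i) (A a j) = A a (i - 1) := by
    intro h0
    have h5 : A a j ≠ A a i := hne _ _ (by omega) (by omega) (by omega)
    rcases hA.up_or_down hc (by omega) hi h5 with h4 | h4
    · exact h4
    · exact (h1 ⟨h5, h4⟩).elim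
  have e1 : P.D w (A a i) (A a j) = f a i / 2 - f a j / 2 := by
    have := hA.down_D hc w (a := a) (fun l => f a l / 2) (i := i) (m := j) (v := A a j)
      hji hi.le (fun l h1 h2 => hne _ _ (by omega) (by omega) (by omega)) h3 (h.hw a)
    rw [this, P.D_self]; ring
  have n1 : f a i - f a j ≤ X a + L := by
    rcases Nat.eq_or_lt_of_le hji with h4 | h4
    · rw [h4]
      have := h.LX a
      have := h.L0
      linarith
    · apply h.ar2 a j i h4 hi.le
      intro hb
      have hb1 := P.btw_symm hb.2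
      have h5 := hA.down_tail hc (a := a) (i := i) (m := j) (v := A a j) (z := t) hji hi.le
        (fun l h1 h2 => hne _ _ (by omega) (by omega) (by omega)) h3
        (fun l h1 h2 => Ne.symm (hA.ne_t a l (by omega) (by omega))) hb1
      exact hA.ne_t a j hj0 (by omega) (P.btw_self h5).symm
  -- the upper part
  have h4 : i + 1 < n a → P.nx (A a (i + 1)) (A a j) = A a (i + 2) := by
    intro h0
    rcases hA.up_or_down hc (by omega) h0 hij1 with h4 | h4
    · exact (h2 h4).elim
    · exact h4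
  have hup : ∀ l, i + 1 ≤ l → l < n a → A a j ≠ A a l :=
    fun l h1 h2 => hne _ _ (by omega) (by omega) (by omega)
  have e2 : P.D w (A a (i + 1)) (A a j) = X a / 2 - f a (i + 1) / 2 + P.D w t (A a j) := by
    have := hA.up_D hc w (a := a) (fun l => f a l / 2) (i := i + 1) (m := n a) (v := A a j)
      (by omega) le_rfl hup h4 (h.hw a)
    rw [this, hA.last, h.fn]
  have b1 : P.Btw (A a (i + 1)) t (A a j) := by
    have := hA.up_btw hc (a := a) (i := i + 1) (m := n a) (v := A a j) le_rfl hup h4 (n a)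
      (by omega) le_rfl
    rwa [hA.last] at this
  have hjn : j < n a := by omega
  have hd : P.nx (A a j) (A a (i + 1)) = A a (j - 1) := by
    rcases hA.up_or_down hc hj0 hjn (Ne.symm hij1) with h5 | h5
    · exact h5
    · exfalso
      have hv' : ∀ l, j ≤ l → l < i + 1 → A a (i + 1) ≠ A a l :=
        fun l h1 h2 => hne _ _ (by omega) (by omega) (by omega)
      have h6 := hA.up_btw hc (a := a) (i := j) (m := i + 1) (v := A a (i + 1)) (by omega)
        hv' (fun _ => h5) i hji (by omega)
      have h7 := hA.up_nx hc (a := a) (i := j) (m := i + 1) (v := A a (i + 1)) (by omega)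
        hv' (fun _ => h5) i hji (by omega)
      have h8 := PathSystem.nx_edge_symm hc (hne i (i + 1) (by omega) (by omega) (by omega)) h7
      have h9 := PathSystem.nx_eq_of_btw hc (P.btw_symm h6)
        (hne i (i + 1) (by omega) (by omega) (by omega))
      rw [h8] at h9
      exact h2 h9.symm
  have b2 : P.Btw (A a j) s (A a (i + 1)) := by
    have := hA.down_btw hc (a := a) (i := j) (m := 0) (v := A a (i + 1)) hjn.le
      (fun l h1 h2 => hne _ _ (by omega) (by omega) (by omega)) (fun _ => hd) 0 le_rfl (by omega)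
    rwa [hA.zero] at this
  have hb1 := P.btw_symm b1
  have n2 : X a + L ≤ f a (i + 1) - f a j := h.ar1 a j (i + 1) (by omega) (by omega) ⟨b2, hb1⟩
  have h10 : P.nx (A a j) t = A a (j - 1) := by
    rw [PathSystem.nx_eq_of_btw hc hb1 (Ne.symm (hA.ne_t a j hj0 hjn)), hd]
  have h11 : P.Btw (A a j) s t := hA.down_s hc hj0 hjn (hA.notInt_t a) h10
  have h12 : P.nx (A a j) s = A a (j - 1) := by
    rw [PathSystem.nx_eq_of_btw hc h11 (Ne.symm (hA.ne_s a j hj0 hjn)), h10]
  have e3 := h.D_down hA hc hj0 hjn h12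
  have e4 := h.h_ns hc h11
  rw [e1, e2, h.hw a i hi]
  constructor <;> linarith

lemma lip (h : Good P n A s t w f X L) (hA : Arms G n A s t) (hc : P.Consistent)
    {a : Fin 3} {i : ℕ} (hi : i < n a) (v : V) :
    P.D w (A a i) v ≤ w s(A a i, A a (i + 1)) + P.D w (A a (i + 1)) v ∧
    P.D w (A a (i + 1)) v ≤ w s(A a i, A a (i + 1)) + P.D w (A a i) v := by
  by_cases hv : NotInt n A a v
  · exact h.lip_out hA hc hi hv
  · unfold NotInt at hv
    push Not at hv
    obtain ⟨j, hj0, hj, rfl⟩ := hv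
    rcases Nat.lt_or_ge i j with h1 | h1
    · have := h.rev.lip_in_up hA.rev hc (a := a) (i := n a - (i + 1)) (j := n a - j) (by omega)
        (by omega) (by omega)
      have e1 : n a - (n a - (i + 1)) = i + 1 := by omega
      have e2 : n a - (n a - (i + 1) + 1) = i := by omega
      have e3 : n a - (n a - j) = j := by omega
      simp only [e1, e2, e3] at this
      rw [Sym2.eq_swap] at this
      exact ⟨this.2, this.1⟩
    · exact h.lip_in_up hA hc hi hj0 h1

theorem induces (h : Good P n A s t w f X L) (hA : Arms G n A s t) (hc : P.Consistent)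
    (hE : ∀ x y, G.Adj x y → ∃ a i, i < n a ∧ ((x = A a i ∧ y = A a (i + 1)) ∨
      (y = A a i ∧ x = A a (i + 1)))) : Induces w P := by
  apply PathSystem.induces_of_local
  intro x y v hxy
  obtain ⟨a, i, hi, (⟨rfl, rfl⟩ | ⟨rfl, rfl⟩)⟩ := hE x y hxy
  · exact (h.lip hA hc hi v).1
  · rw [Sym2.eq_swap]
    exact (h.lip hA hc hi v).2

end Good

end Pool.Agent.K7.H17.Theta
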