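import Pool.Agent.K7.H17.Theta.Mid

namespace Pool.Agent.K7.H17.Theta

open SimpleGraph

lemma pt_zero (n : Fin 3 → ℕ) (a : Fin 3) : pt n a 0 = TVert.s := by simp [pt]

lemma pt_mid (n : Fin 3 → ℕ) (a : Fin 3) (k : ℕ) (h0 : 0 < k) (hk : k < n a) :
    pt n a k = TVert.mid a ⟨k - 1, by omega⟩ := by
  unfold pt
  rw [if_neg (by omega), dif_pos (by omega : k - 1 < n a - 1)]

lemma pt_last (n : Fin 3 → ℕ) (a : Fin 3) (h : 1 ≤ n a) : pt n a (n a) = TVert.t := by
  unfold pt
  rw [if_neg (by omega), dif_neg (by omega)]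

lemma pt_inj {n : Fin 3 → ℕ} {a b : Fin 3} {i j : ℕ} (h0 : 0 < i) (hi : i < n a) (hj : j ≤ n b)
    (e : pt n a i = pt n b j) : a = b ∧ i = j := by
  rw [pt_mid n a i h0 hi] at e
  rcases Nat.eq_zero_or_pos j with hj0 | hj0
  · rw [hj0, pt_zero] at e
    exact TVert.noConfusion rfl (heq_of_eq e)
  · rcases Nat.eq_or_lt_of_le hj with h1 | h1
    · rw [h1, pt_last n b (by omega)] at e
      exact TVert.noConfusion rfl (heq_of_eq e)
    · rw [pt_mid n b j hj0 h1] at e
      injection e with e1 e2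
      subst e1
      have e3 := eq_of_heq e2
      rw [Fin.mk.injEq] at e3
      exact ⟨rfl, by omega⟩

theorem theta_arms (n : Fin 3 → ℕ) (hn : ∀ a, 2 ≤ n a) :
    Arms (theta n) n (pt n) TVert.s TVert.t where
  two := hn
  zero := pt_zero n
  last a := pt_last n a (by have := hn a; omega)
  st := by intro h; exact TVert.noConfusion rfl (heq_of_eq h)
  ne_s a i h0 hi e := by
    rw [← pt_zero n a] at e
    have := (pt_inj h0 hi (by omega) e).2
    omega
  ne_t a i h0 hi e := by
    rw [← pt_last n a (by omega)] at e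
    have := (pt_inj h0 hi le_rfl e).2
    omega
  inj a i b j h0 hi h0' hj e := pt_inj h0 hi hj.le e
  adj a i hi := by
    unfold theta
    rw [SimpleGraph.fromRel_adj]
    refine ⟨?_, Or.inl ⟨a, i, hi, rfl, rfl⟩⟩
    intro e
    have h2 := hn a
    rcases Nat.eq_zero_or_pos i with h0 | h0
    · subst h0
      have := (pt_inj (by omega) (by omega) (by omega) e.symm).2
      omega
    · have := (pt_inj h0 hi (by omega) e).2
      omega
  nbr a i x h0 hi h := by
    unfold theta at h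
    rw [SimpleGraph.fromRel_adj] at h
    obtain ⟨_, (⟨b, k, hk, e1, e2⟩ | ⟨b, k, hk, e1, e2⟩)⟩ := h
    · obtain ⟨rfl, rfl⟩ := pt_inj h0 hi hk.le e1
      exact Or.inr e2
    · obtain ⟨rfl, rfl⟩ := pt_inj h0 hi (by omega) e2
      exact Or.inl (by simpa using e1)
  nbr_s x h := by
    unfold theta at h
    rw [SimpleGraph.fromRel_adj] at h
    obtain ⟨_, (⟨b, k, hk, e1, e2⟩ | ⟨b, k, hk, e1, e2⟩)⟩ := h
    · rcases Nat.eq_zero_or_pos k with h0 | h0
      · subst h0; exact ⟨b, e2⟩
      · rw [pt_mid n b k h0 hk] at e1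
        exact TVert.noConfusion rfl (heq_of_eq e1)
    · have h2 := hn b
      rcases Nat.eq_or_lt_of_le (show k + 1 ≤ n b by omega) with h1 | h1
      · rw [h1, pt_last n b (by omega)] at e2
        exact TVert.noConfusion rfl (heq_of_eq e2)
      · rw [pt_mid n b (k + 1) (by omega) h1] at e2
        exact TVert.noConfusion rfl (heq_of_eq e2)
  nbr_t x h := by
    unfold theta at h
    rw [SimpleGraph.fromRel_adj] at h
    obtain ⟨_, (⟨b, k, hk, e1, e2⟩ | ⟨b, k, hk, e1, e2⟩)⟩ := h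
    · rcases Nat.eq_zero_or_pos k with h0 | h0
      · subst h0
        rw [pt_zero] at e1
        exact TVert.noConfusion rfl (heq_of_eq e1)
      · rw [pt_mid n b k h0 hk] at e1
        exact TVert.noConfusion rfl (heq_of_eq e1)
    · have h2 := hn b
      rcases Nat.eq_or_lt_of_le (show k + 1 ≤ n b by omega) with h1 | h1
      · refine ⟨b, ?_⟩
        rw [e1]; congr 1; omega
      · rw [pt_mid n b (k + 1) (by omega) h1] at e2
        exact TVert.noConfusion rfl (heq_of_eq e2)
  cover x := by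
    cases x with
    | s => exact Or.inl rfl
    | t => exact Or.inr (Or.inl rfl)
    | mid a k =>
      have := k.2
      refine Or.inr (Or.inr ⟨a, k.1 + 1, by omega, by omega, ?_⟩)
      rw [pt_mid n a _ (by omega) (by omega)]
      simp

lemma theta_edges (n : Fin 3 → ℕ) : ∀ x y, (theta n).Adj x y → ∃ a i, i < n a ∧
    ((x = pt n a i ∧ y = pt n a (i + 1)) ∨ (y = pt n a i ∧ x = pt n a (i + 1))) := by
  intro x y h
  unfold theta at h
  rw [SimpleGraph.fromRel_adj] at h
  obtain ⟨_, (⟨b, k, hk, e1, e2⟩ | ⟨b, k, hk, e1, e2⟩)⟩ := h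
  · exact ⟨b, k, hk, Or.inl ⟨e1, e2⟩⟩
  · exact ⟨b, k, hk, Or.inr ⟨e1, e2⟩⟩

/-- `Θ_{2,b,c}` is metrizable -/
theorem theta_two (b c : ℕ) (hb : 2 ≤ b) (hc : 2 ≤ c) : Metrizable (theta ![2, b, c]) := by
  have hn : ∀ a, 2 ≤ (![2, b, c] : Fin 3 → ℕ) a := by
    intro a; fin_cases a
    · exact le_rfl
    · exact hb
    · exact hc
  have hA := theta_arms ![2, b, c] hn
  apply hA.metr (theta_edges _)
  intro P hP
  apply hA.midReal_one hP (a := 1) (b := 2) (c := 0) (by decide) (by decide) (by decide)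
    (by decide)
  intro i i' h h'
  have h1 : i < 2 := h.2.1
  have h2 : i' < 2 := h'.2.1
  have := h.1
  have := h'.1
  omega

end Pool.Agent.K7.H17.Theta
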