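import Mathlib

namespace Pool.Agent.K7.H17.Theta

open Finset

open scoped Classical in
/-- number of `x ∈ I` with `p x` -/
noncomputable def cnt (I : Finset ℕ) (p : ℕ → Prop) : ℕ := #(I.filter p)

lemma cnt_split (I : Finset ℕ) (p : ℕ → Prop) :
    cnt I p + cnt I (fun i => ¬ p i) = #I := by
  classical
  unfold cnt
  convert Finset.card_filter_add_card_filter_not (s := I) p

lemma cnt_le {I : Finset ℕ} {p q : ℕ → Prop} (h : ∀ x ∈ I, p x → q x) : cnt I p ≤ cnt I q := by
  classical
  apply card_le_card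
  intro x hx
  rw [mem_filter] at hx ⊢
  exact ⟨hx.1, h x hx.1 hx.2⟩

lemma cnt_all {I : Finset ℕ} {p : ℕ → Prop} (h : ∀ x ∈ I, p x) : cnt I p = #I := by
  classical
  unfold cnt
  rw [filter_true_of_mem h]

lemma cnt_lt_gt {I : Finset ℕ} {i : ℕ} (hi : i ∈ I) :
    cnt I (fun x => x < i) + cnt I (fun x => i < x) + 1 = #I := by
  classical
  have h1 := cnt_split I (fun x => x < i)
  have h2 : cnt I (fun x => ¬ x < i) = cnt I (fun x => i < x) + 1 := by
    unfold cnt
    have : I.filter (fun x => ¬ x < i) = insert i (I.filter (fun x => i < x)) := by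
      ext x
      simp only [mem_filter, mem_insert, not_lt]
      constructor
      · rintro ⟨h3, h4⟩
        rcases Nat.eq_or_lt_of_le h4 with h5 | h5
        · left; exact h5.symm
        · right; exact ⟨h3, h5⟩
      · rintro (rfl | ⟨h3, h4⟩)
        · exact ⟨hi, le_rfl⟩
        · exact ⟨h3, h4.le⟩
    have e : #(I.filter (fun x => ¬ x < i)) = #(I.filter (fun x => i < x)) + 1 := by
      rw [this, card_insert_of_notMem (by simp)]
    convert e
  omega

/-- merging two chains, first variant (`T` antitone in `i`, monotone in `j`) -/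
lemma merge_anti (I J : Finset ℕ) (T : ℕ → ℕ → Prop)
    (h1 : ∀ i ∈ I, ∀ i' ∈ I, ∀ j ∈ J, i' ≤ i → T i j → T i' j)
    (h2 : ∀ i ∈ I, ∀ j ∈ J, ∀ j' ∈ J, j ≤ j' → T i j → T i j')
    {i j : ℕ} (hi : i ∈ I) (hj : j ∈ J) :
    (T i j → #I + #J ≤ (cnt I (fun x => i < x) + cnt J (fun y => T i y)) +
      (cnt J (fun y => y < j) + cnt I (fun x => T x j))) ∧
    (¬ T i j → (cnt I (fun x => i < x) + cnt J (fun y => T i y)) +
      (cnt J (fun y => y < j) + cnt I (fun x => T x j)) + 2 ≤ #I + #J) := by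
  have eI := cnt_lt_gt hi
  have eJ := cnt_lt_gt hj
  constructor
  · intro hT
    have a1 : cnt I (fun x => ¬ i < x) ≤ cnt I (fun x => T x j) :=
      cnt_le (fun x hx hx2 => h1 i hi x hx j hj (by omega) hT)
    have a2 : cnt J (fun y => ¬ y < j) ≤ cnt J (fun y => T i y) :=
      cnt_le (fun x hx hx2 => h2 i hi j hj x hx (by omega) hT)
    have b1 := cnt_split I (fun x => i < x)
    have b2 := cnt_split J (fun y => y < j)
    omega
  · intro hT
    have a1 : cnt I (fun x => T x j) ≤ cnt I (fun x => x < i) := by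
      apply cnt_le
      intro x hx hx2
      by_contra h3
      exact hT (h1 x hx i hi j hj (by omega) hx2)
    have a2 : cnt J (fun y => T i y) ≤ cnt J (fun y => j < y) := by
      apply cnt_le
      intro x hx hx2
      by_contra h3
      exact hT (h2 i hi x hx j hj (by omega) hx2)
    omega

/-- merging two chains, second variant (`T` monotone in both) -/
lemma merge_mono (I J : Finset ℕ) (T : ℕ → ℕ → Prop)
    (h1 : ∀ i ∈ I, ∀ i' ∈ I, ∀ j ∈ J, i ≤ i' → T i j → T i' j)
    (h2 : ∀ i ∈ I, ∀ j ∈ J, ∀ j' ∈ J, j ≤ j' → T i j → T i j')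
    {i j : ℕ} (hi : i ∈ I) (hj : j ∈ J) :
    (T i j → #I + #J ≤ (cnt I (fun x => x < i) + cnt J (fun y => T i y)) +
      (cnt J (fun y => y < j) + cnt I (fun x => T x j))) ∧
    (¬ T i j → (cnt I (fun x => x < i) + cnt J (fun y => T i y)) +
      (cnt J (fun y => y < j) + cnt I (fun x => T x j)) + 2 ≤ #I + #J) := by
  have eI := cnt_lt_gt hi
  have eJ := cnt_lt_gt hj
  constructor
  · intro hT
    have a1 : cnt I (fun x => ¬ x < i) ≤ cnt I (fun x => T x j) :=
      cnt_le (fun x hx hx2 => h1 i hi x hx j hj (by omega) hT)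
    have a2 : cnt J (fun y => ¬ y < j) ≤ cnt J (fun y => T i y) :=
      cnt_le (fun x hx hx2 => h2 i hi j hj x hx (by omega) hT)
    have b1 := cnt_split I (fun x => x < i)
    have b2 := cnt_split J (fun y => y < j)
    omega
  · intro hT
    have a1 : cnt I (fun x => T x j) ≤ cnt I (fun x => i < x) := by
      apply cnt_le
      intro x hx hx2
      by_contra h3
      exact hT (h1 x hx i hi j hj (by omega) hx2)
    have a2 : cnt J (fun y => T i y) ≤ cnt J (fun y => j < y) := by
      apply cnt_le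
      intro x hx hx2
      by_contra h3
      exact hT (h2 i hi x hx j hj (by omega) hx2)
    omega

/-- a cut in a finite chain -/
lemma exists_cut (I : Finset ℕ) (α : ℕ → ℕ) (S : ℕ → Prop)
    (hα : ∀ i ∈ I, ∀ i' ∈ I, i < i' → α i < α i')
    (hS : ∀ i ∈ I, ∀ i' ∈ I, i' ≤ i → S i → S i') :
    ∃ x : ℝ, ∀ i ∈ I, (S i → (α i : ℝ) < x) ∧ (¬ S i → x < α i) := by
  classical
  by_cases hne : (I.filter S).Nonempty
  · obtain ⟨i0, hi0, hmax⟩ := (I.filter S).exists_max_image id hne
    rw [mem_filter] at hi0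
    refine ⟨α i0 + 1 / 2, fun i hi => ⟨fun h => ?_, fun h => ?_⟩⟩
    · have h1 := hmax i (mem_filter.2 ⟨hi, h⟩)
      have h2 : α i ≤ α i0 := by
        rcases Nat.eq_or_lt_of_le (show i ≤ i0 from h1) with h3 | h3
        · rw [h3]
        · exact (hα i hi i0 hi0.1 h3).le
      have h3 : (α i : ℝ) ≤ α i0 := by exact_mod_cast h2
      linarith
    · have h1 : i0 < i := by
        by_contra h2
        exact h (hS i0 hi0.1 i hi (by omega) hi0.2)
      have h2 := hα i0 hi0.1 i hi h1
      have h3 : (α i0 : ℝ) + 1 ≤ α i := by exact_mod_cast h2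
      linarith
  · refine ⟨-1, fun i hi => ⟨fun h => ?_, fun _ => ?_⟩⟩
    · exact (hne ⟨i, mem_filter.2 ⟨hi, h⟩⟩).elim
    · have : (0 : ℝ) ≤ α i := Nat.cast_nonneg _
      linarith

end Pool.Agent.K7.H17.Theta
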