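import Pool.Agent.K7.H17.Theta.Real

namespace Pool.Agent.K7.H17.Theta

open SimpleGraph Finset

universe u

variable {V : Type u} {G : SimpleGraph V} {P : PathSystem G}
  {n : Fin 3 → ℕ} {A : Fin 3 → ℕ → V} {s t : V}

open Arms

lemma Arms.sgn_mono_t (hA : Arms G n A s t) (hc : P.Consistent) {a : Fin 3} {i i' : ℕ} {v : V}
    (h0 : 0 < i) (h1 : i ≤ i') (hi : i' < n a) (hv : NotInt n A a v)
    (hx : ¬ P.Btw (A a i) s t) (hy : ¬ P.Btw v s t) (h : P.Btw (A a i) t v) :
    P.Btw (A a i') t v := by
  have e1 : n a - (n a - i) = i := by omega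
  have e2 : n a - (n a - i') = i' := by omega
  have := hA.rev.sgn_mono hc (a := a) (i' := n a - i') (i := n a - i) (v := v) (by omega)
    (by omega) (by omega) (fun l h1 h2 => hv _ (by omega) (by omega)) (by simpa [e1] using hx) hy
    (by simpa [e1] using h)
  simpa [e2] using this

/-- all sign conditions between arms `a` and `b` -/
def SgnCond (P : PathSystem G) (n : Fin 3 → ℕ) (A : Fin 3 → ℕ → V) (s t : V)
    (m : Fin 3 → ℕ → ℝ) (a b : Fin 3) : Prop :=
  ∀ i j, IsMid P n A s t a i → IsMid P n A s t b j →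
    (P.Btw (A a i) s (A b j) → m a i + m b j ≤ 0) ∧ (P.Btw (A a i) t (A b j) → 0 ≤ m a i + m b j)

lemma SgnCond.symm {m : Fin 3 → ℕ → ℝ} {a b : Fin 3} (h : SgnCond P n A s t m a b) :
    SgnCond P n A s t m b a := by
  intro i j hi hj
  obtain ⟨h1, h2⟩ := h j i hj hi
  constructor
  · intro h3; rw [add_comm]; exact h1 (P.btw_symm h3)
  · intro h3; rw [add_comm]; exact h2 (P.btw_symm h3)

lemma midReal_of_three {m : Fin 3 → ℕ → ℝ} {a b c : Fin 3}
    (hcov : ∀ e, e = a ∨ e = b ∨ e = c)
    (hab : SgnCond P n A s t m a b) (hac : SgnCond P n A s t m a c)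
    (hbc : SgnCond P n A s t m b c)
    (hmono : ∀ a i, IsMid P n A s t a i → IsMid P n A s t a (i + 1) → m a i < m a (i + 1)) :
    MidReal P n A s t m := by
  refine ⟨hmono, ?_⟩
  intro e e' i j hne
  have key : SgnCond P n A s t m e e' := by
    rcases hcov e with rfl | rfl | rfl
    · rcases hcov e' with rfl | rfl | rfl
      · exact (hne rfl).elim
      · exact hab
      · exact hac
    · rcases hcov e' with rfl | rfl | rfl
      · exact hab.symm
      · exact (hne rfl).elim
      · exact hbc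
    · rcases hcov e' with rfl | rfl | rfl
      · exact hac.symm
      · exact hbc.symm
      · exact (hne rfl).elim
  exact key i j

section two

variable (P n A s t)

open scoped Classical in
noncomputable def MI (a : Fin 3) : Finset ℕ :=
  (range (n a)).filter (fun i => IsMid P n A s t a i)

/-- merged rank on the chain of mid vertices of arm `a`, relative to arm `b` -/
noncomputable def rk (a b : Fin 3) (i : ℕ) : ℕ :=
  cnt (MI P n A s t a) (fun x => x < i) + cnt (MI P n A s t b) (fun y => P.Btw (A a i) t (A b y))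

end two

lemma mem_MI {a : Fin 3} {i : ℕ} : i ∈ MI P n A s t a ↔ IsMid P n A s t a i := by
  classical
  unfold MI
  rw [mem_filter, mem_range]
  constructor
  · exact fun h => h.2
  · exact fun h => ⟨h.2.1, h⟩

lemma Arms.mid_mono_left (hA : Arms G n A s t) (hc : P.Consistent) {a b : Fin 3} (hab : a ≠ b)
    {i i' j : ℕ} (hi : IsMid P n A s t a i) (hi' : IsMid P n A s t a i')
    (hj : IsMid P n A s t b j) (hii : i ≤ i')
    (h : P.Btw (A a i) t (A b j)) : P.Btw (A a i') t (A b j) :=
  hA.sgn_mono_t hc hi.1 hii hi'.2.1 (hA.notInt_of_ne hab hj.2.1.le) hi.2.2.1 hj.2.2.1 h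

lemma Arms.mid_mono_right (hA : Arms G n A s t) (hc : P.Consistent) {a b : Fin 3} (hab : a ≠ b)
    {i j j' : ℕ} (hi : IsMid P n A s t a i) (hj : IsMid P n A s t b j)
    (hj' : IsMid P n A s t b j') (hjj : j ≤ j')
    (h : P.Btw (A a i) t (A b j)) : P.Btw (A a i) t (A b j') :=
  P.btw_symm (hA.mid_mono_left hc hab.symm hj hj' hi hjj (P.btw_symm h))

lemma Arms.mid_or (hA : Arms G n A s t) (hc : P.Consistent) {a b : Fin 3} (hab : a ≠ b)
    {i j : ℕ} (hi : IsMid P n A s t a i) (hj : IsMid P n A s t b j) :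
    P.Btw (A a i) s (A b j) ↔ ¬ P.Btw (A a i) t (A b j) := by
  constructor
  · intro h1 h2
    exact mid_not_both hc hi.2.2.2 hj.2.2.2 h1 h2
  · intro h1
    exact (hA.out_or hc hi.1 hi.2.1 (hA.notInt_of_ne hab hj.2.1.le)).resolve_right h1

lemma Arms.rk_lt (hA : Arms G n A s t) (hc : P.Consistent) {a b : Fin 3} (hab : a ≠ b)
    {i i' : ℕ} (hi : i ∈ MI P n A s t a) (hi' : i' ∈ MI P n A s t a) (hii : i < i') :
    rk P n A s t a b i < rk P n A s t a b i' := by
  have h1 : cnt (MI P n A s t a) (fun x => x < i) < cnt (MI P n A s t a) (fun x => x < i') := by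
    classical
    unfold cnt
    have : insert i ((MI P n A s t a).filter (fun x => x < i)) ⊆
        (MI P n A s t a).filter (fun x => x < i') := by
      intro x hx
      rw [mem_insert, mem_filter] at hx
      rw [mem_filter]
      rcases hx with rfl | hx
      · exact ⟨hi, by omega⟩
      · exact ⟨hx.1, by omega⟩
    have h2 := card_le_card this
    rw [card_insert_of_notMem (by simp)] at h2
    have h3 : #((MI P n A s t a).filter (fun x => x < i)) <
      #((MI P n A s t a).filter (fun x => x < i')) := by omega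
    convert h3
  have h2 : cnt (MI P n A s t b) (fun y => P.Btw (A a i) t (A b y)) ≤
      cnt (MI P n A s t b) (fun y => P.Btw (A a i') t (A b y)) := by
    apply cnt_le
    intro y hy hT
    exact hA.mid_mono_left hc hab (mem_MI.1 hi) (mem_MI.1 hi') (mem_MI.1 hy) hii.le hT
  unfold rk
  omega

lemma Arms.rk_sum (hA : Arms G n A s t) (hc : P.Consistent) {a b : Fin 3} (hab : a ≠ b)
    {i j : ℕ} (hi : i ∈ MI P n A s t a) (hj : j ∈ MI P n A s t b) :
    (P.Btw (A a i) t (A b j) → #(MI P n A s t a) + #(MI P n A s t b) ≤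
      rk P n A s t a b i + rk P n A s t b a j) ∧
    (¬ P.Btw (A a i) t (A b j) → rk P n A s t a b i + rk P n A s t b a j + 2 ≤
      #(MI P n A s t a) + #(MI P n A s t b)) := by
  have := merge_mono (MI P n A s t a) (MI P n A s t b) (fun x y => P.Btw (A a x) t (A b y))
    (fun i hi i' hi' j hj hii h =>
      hA.mid_mono_left hc hab (mem_MI.1 hi) (mem_MI.1 hi') (mem_MI.1 hj) hii h)
    (fun i hi j hj j' hj' hjj h =>
      hA.mid_mono_right hc hab (mem_MI.1 hi) (mem_MI.1 hj) (mem_MI.1 hj') hjj h) hi hj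
  have e : cnt (MI P n A s t a) (fun x => P.Btw (A b j) t (A a x)) =
      cnt (MI P n A s t a) (fun x => P.Btw (A a x) t (A b j)) := by
    apply le_antisymm
    · exact cnt_le (fun x _ h => P.btw_symm h)
    · exact cnt_le (fun x _ h => P.btw_symm h)
  unfold rk
  rw [e]
  exact this

theorem Arms.midReal_one (hA : Arms G n A s t) (hc : P.Consistent) {a b c : Fin 3}
    (hab : a ≠ b) (hac : a ≠ c) (hbc : b ≠ c) (hcov : ∀ e, e = a ∨ e = b ∨ e = c)
    (hone : ∀ i i', IsMid P n A s t c i → IsMid P n A s t c i' → i = i') :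
    ∃ m, MidReal P n A s t m := by
  classical
  obtain ⟨M, hMa, hMb, hMt, hM⟩ : ∃ M : V, NotInt n A a M ∧ NotInt n A b M ∧ ¬ P.Btw M t s ∧
      ∀ i, IsMid P n A s t c i → A c i = M := by
    by_cases h : ∃ i, IsMid P n A s t c i
    · obtain ⟨i0, hi0⟩ := h
      exact ⟨A c i0, hA.notInt_of_ne hac hi0.2.1.le, hA.notInt_of_ne hbc hi0.2.1.le, hi0.2.2.2,
        fun i hi => by rw [hone i i0 hi hi0]⟩
    · refine ⟨s, hA.notInt_s a, hA.notInt_s b, fun h1 => hA.st (P.btw_self h1).symm, ?_⟩
      intro i hi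
      exact (h ⟨i, hi⟩).elim
  obtain ⟨x, hx⟩ := exists_cut (MI P n A s t a) (rk P n A s t a b) (fun i => P.Btw (A a i) s M)
    (fun i hi i' hi' h => hA.rk_lt hc hab hi hi' h)
    (fun i hi i' hi' h hS => hA.sgn_mono hc (mem_MI.1 hi').1 h (mem_MI.1 hi).2.1 hMa
      (mem_MI.1 hi).2.2.2 hMt hS)
  obtain ⟨y, hy⟩ := exists_cut (MI P n A s t b) (rk P n A s t b a) (fun i => P.Btw (A b i) s M)
    (fun i hi i' hi' h => hA.rk_lt hc hab.symm hi hi' h)
    (fun i hi i' hi' h hS => hA.sgn_mono hc (mem_MI.1 hi').1 h (mem_MI.1 hi).2.1 hMb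
      (mem_MI.1 hi).2.2.2 hMt hS)
  set N : ℝ := (#(MI P n A s t a) : ℝ) + #(MI P n A s t b) - 1 with hN
  set τ : ℝ := (x + N - y) / 2 with hτ
  set μ : ℝ := (N - y - x) / 2 with hμ
  refine ⟨fun e i => if e = c then μ else if e = a then (rk P n A s t a b i : ℝ) - τ
    else (rk P n A s t b a i : ℝ) - (N - τ), ?_⟩
  apply midReal_of_three hcov
  · -- a b
    intro i j hi hj
    simp only [hac, hbc, if_false, if_true, hab.symm]
    have h1 := hA.rk_sum hc hab (mem_MI.2 hi) (mem_MI.2 hj)
    constructor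
    · intro h2
      have h3 := h1.2 ((hA.mid_or hc hab hi hj).1 h2)
      have h4 : ((rk P n A s t a b i : ℝ) + rk P n A s t b a j) + 2 ≤
        (#(MI P n A s t a) : ℝ) + #(MI P n A s t b) := by exact_mod_cast h3
      linarith
    · intro h2
      have h3 := h1.1 h2
      have h4 : (#(MI P n A s t a) : ℝ) + #(MI P n A s t b) ≤
        ((rk P n A s t a b i : ℝ) + rk P n A s t b a j) := by exact_mod_cast h3
      linarith
  · -- a c
    intro i j hi hj
    simp only [hac, if_false, if_true]
    have h1 := hx i (mem_MI.2 hi)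
    rw [hM j hj]
    have hmo := hA.mid_or hc hac hi hj
    rw [hM j hj] at hmo
    constructor
    · intro h2
      have := h1.1 h2
      linarith
    · intro h2
      have := h1.2 (fun h3 => hmo.1 h3 h2)
      linarith
  · intro i j hi hj
    simp only [hbc, hab.symm, if_false, if_true]
    have h1 := hy i (mem_MI.2 hi)
    rw [hM j hj]
    have hmo := hA.mid_or hc hbc hi hj
    rw [hM j hj] at hmo
    constructor
    · intro h2
      have := h1.1 h2
      linarith
    · intro h2
      have := h1.2 (fun h3 => hmo.1 h3 h2)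
      linarith
  · intro e i hi hi'
    rcases hcov e with rfl | rfl | rfl
    · simp only [hac, if_false, if_true]
      have := hA.rk_lt hc hab (mem_MI.2 hi) (mem_MI.2 hi') (by omega)
      have h2 : (rk P n A s t e b i : ℝ) < rk P n A s t e b (i + 1) := by exact_mod_cast this
      linarith
    · simp only [hbc, hab.symm, if_false]
      have := hA.rk_lt hc hab.symm (mem_MI.2 hi) (mem_MI.2 hi') (by omega)
      have h2 : (rk P n A s t e a i : ℝ) < rk P n A s t e a (i + 1) := by exact_mod_cast this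
      linarith
    · have := hone i (i + 1) hi hi'
      omega

end Pool.Agent.K7.H17.Theta
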