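import Pool.Agent.K7.H17.Theta.Good
import Pool.Agent.K7.H17.Theta.Merge

namespace Pool.Agent.K7.H17.Theta

open SimpleGraph Finset

universe u

variable {V : Type u} {G : SimpleGraph V} {P : PathSystem G}
  {n : Fin 3 → ℕ} {A : Fin 3 → ℕ → V} {s t : V}

open Arms

/-- `A a i` is an interior vertex with direct paths to both `s` and `t` -/
def IsMid (P : PathSystem G) (n : Fin 3 → ℕ) (A : Fin 3 → ℕ → V) (s t : V) (a : Fin 3) (i : ℕ) :
    Prop :=
  0 < i ∧ i < n a ∧ ¬ P.Btw (A a i) s t ∧ ¬ P.Btw (A a i) t s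

structure MidReal (P : PathSystem G) (n : Fin 3 → ℕ) (A : Fin 3 → ℕ → V) (s t : V)
    (m : Fin 3 → ℕ → ℝ) : Prop where
  mono : ∀ a i, IsMid P n A s t a i → IsMid P n A s t a (i + 1) → m a i < m a (i + 1)
  sgn : ∀ a b i j, a ≠ b → IsMid P n A s t a i → IsMid P n A s t b j →
    (P.Btw (A a i) s (A b j) → m a i + m b j ≤ 0) ∧ (P.Btw (A a i) t (A b j) → 0 ≤ m a i + m b j)

lemma Arms.gen_inj (hA : Arms G n A s t) {a b : Fin 3} {i j : ℕ} (h0 : 0 < i) (hi : i < n a)
    (hj : j ≤ n b) (e : A a i = A b j) : a = b ∧ i = j := by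
  by_cases hab : a = b
  · subst hab
    exact ⟨rfl, hA.inj_arm hi.le hj e⟩
  · exact (hA.notInt_of_ne hab hj i h0 hi e.symm).elim

lemma Arms.edge_inj (hA : Arms G n A s t) {a b : Fin 3} {i j : ℕ} (hi : i < n a) (hj : j < n b)
    (e : s(A a i, A a (i + 1)) = s(A b j, A b (j + 1))) : a = b ∧ i = j := by
  have h2 := hA.two a
  rw [Sym2.eq_iff] at e
  rcases e with ⟨e1, e2⟩ | ⟨e1, e2⟩
  · rcases Nat.eq_zero_or_pos i with h0 | h0
    · subst h0
      obtain ⟨h3, h4⟩ := hA.gen_inj (by omega) (by omega) (by omega) e2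
      exact ⟨h3, by omega⟩
    · exact hA.gen_inj h0 hi hj.le e1
  · rcases Nat.eq_zero_or_pos i with h0 | h0
    · subst h0
      obtain ⟨h3, h4⟩ := hA.gen_inj (by omega) (by omega) (by omega) e2
      subst h3
      have := hA.inj_arm (by omega) (by omega) e1
      omega
    · obtain ⟨h3, h4⟩ := hA.gen_inj h0 hi (by omega) e1
      subst h3
      have := hA.inj_arm (by omega) (by omega) e2
      omega

open scoped Classical in
lemma Arms.exists_w (hA : Arms G n A s t) (f : Fin 3 → ℕ → ℝ) :
    ∃ w : Sym2 V → ℝ, ∀ a, ∀ l < n a, w s(A a l, A a (l + 1)) = f a (l + 1) / 2 - f a l / 2 := by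
  refine ⟨fun e => if h : ∃ p : Fin 3 × ℕ, p.2 < n p.1 ∧ e = s(A p.1 p.2, A p.1 (p.2 + 1)) then
    f h.choose.1 (h.choose.2 + 1) / 2 - f h.choose.1 h.choose.2 / 2 else 0, ?_⟩
  intro a l hl
  have h : ∃ p : Fin 3 × ℕ, p.2 < n p.1 ∧
      s(A a l, A a (l + 1)) = s(A p.1 p.2, A p.1 (p.2 + 1)) := ⟨(a, l), hl, rfl⟩
  beta_reduce
  rw [dif_pos h]
  obtain ⟨h1, h2⟩ := h.choose_spec
  obtain ⟨h3, h4⟩ := hA.edge_inj hl h1 h2
  rw [← h3, ← h4]

section

variable (P n A s t)

open scoped Classical in
noncomputable def SI (a : Fin 3) : Finset ℕ :=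
  (range (n a + 1)).filter (fun i => P.Btw (A a i) s t)

open scoped Classical in
noncomputable def TI (a : Fin 3) : Finset ℕ :=
  (range (n a + 1)).filter (fun i => P.Btw (A a i) t s)

noncomputable def al (k a : Fin 3) (i : ℕ) : ℝ :=
  if a = k then 0 else
    ((cnt (SI P n A s t a) (fun x => i < x) +
      cnt (TI P n A s t a) (fun y => Around P A s t a i y) : ℕ) : ℝ)

noncomputable def be (k a : Fin 3) (j : ℕ) : ℝ :=
  if a = k then 0 else
    ((cnt (TI P n A s t a) (fun y => y < j) +
      cnt (SI P n A s t a) (fun x => Around P A s t a x j) : ℕ) : ℝ)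

open scoped Classical in
noncomputable def ff (k : Fin 3) (m : Fin 3 → ℕ → ℝ) (L : ℝ) (a : Fin 3) (i : ℕ) : ℝ :=
  if P.Btw (A a i) s t then - L - al P n A s t k a i
  else if P.Btw (A a i) t s then L + be P n A s t k a i else m a i

end

lemma mem_SI {a : Fin 3} {i : ℕ} : i ∈ SI P n A s t a ↔ i ≤ n a ∧ P.Btw (A a i) s t := by
  classical
  unfold SI
  rw [mem_filter, mem_range, Nat.lt_succ_iff]

lemma mem_TI {a : Fin 3} {i : ℕ} : i ∈ TI P n A s t a ↔ i ≤ n a ∧ P.Btw (A a i) t s := by
  classical
  unfold TI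
  rw [mem_filter, mem_range, Nat.lt_succ_iff]

lemma Arms.ns_lt (hA : Arms G n A s t) {a : Fin 3} {i : ℕ} (hi : i ≤ n a)
    (h : P.Btw (A a i) s t) : i < n a := by
  rcases Nat.eq_or_lt_of_le hi with h1 | h1
  · rw [h1, hA.last] at h
    exact (hA.st (P.btw_self h)).elim
  · exact h1

lemma Arms.nt_pos (hA : Arms G n A s t) {a : Fin 3} {i : ℕ}
    (h : P.Btw (A a i) t s) : 0 < i := by
  rcases Nat.eq_zero_or_pos i with h1 | h1
  · rw [h1, hA.zero] at h
    exact (hA.st (P.btw_self h).symm).elim
  · exact h1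

lemma Arms.ns_lt_nt (hA : Arms G n A s t) (hc : P.Consistent) {a : Fin 3} {i j : ℕ}
    (hi : i ≤ n a) (h : P.Btw (A a i) s t) (h' : P.Btw (A a j) t s) : i < j := by
  by_contra h1
  have h2 := hA.nt_mono hc (a := a) (i := j) (i' := i) (by omega) (hA.nt_pos h') hi h'
  exact PathSystem.not_both hc hA.st h h2

lemma Arms.merge_ar (hA : Arms G n A s t) (hc : P.Consistent) {a : Fin 3} {i j : ℕ}
    (hi : i ∈ SI P n A s t a) (hj : j ∈ TI P n A s t a) :
    (Around P A s t a i j → #(SI P n A s t a) + #(TI P n A s t a) ≤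
      (cnt (SI P n A s t a) (fun x => i < x) +
      cnt (TI P n A s t a) (fun y => Around P A s t a i y)) +
      (cnt (TI P n A s t a) (fun y => y < j) +
      cnt (SI P n A s t a) (fun x => Around P A s t a x j))) ∧
    (¬ Around P A s t a i j → (cnt (SI P n A s t a) (fun x => i < x) +
      cnt (TI P n A s t a) (fun y => Around P A s t a i y)) +
      (cnt (TI P n A s t a) (fun y => y < j) +
      cnt (SI P n A s t a) (fun x => Around P A s t a x j)) + 2 ≤
        #(SI P n A s t a) + #(TI P n A s t a)) := by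
  apply merge_anti (SI P n A s t a) (TI P n A s t a) (fun x y => Around P A s t a x y) _ _ hi hj
  · intro i hi i' hi' j hj hii hT
    have h1 := mem_SI.1 hi
    have h2 := mem_TI.1 hj
    exact hA.around_mono_left hc hii (hA.ns_lt_nt hc h1.1 h1.2 h2.2) h2.1 hT
  · intro i hi j hj j' hj' hjj hT
    have h1 := mem_SI.1 hi
    have h2 := mem_TI.1 hj
    have h3 := mem_TI.1 hj'
    exact hA.around_mono_right hc hjj (hA.ns_lt_nt hc h1.1 h1.2 h2.2) h3.1 hT

lemma Arms.zero_mem (hA : Arms G n A s t) (a : Fin 3) : 0 ∈ SI P n A s t a :=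
  mem_SI.2 ⟨by omega, by rw [hA.zero]; exact P.btw_left _ _⟩

lemma Arms.last_mem (hA : Arms G n A s t) (a : Fin 3) : n a ∈ TI P n A s t a :=
  mem_TI.2 ⟨le_rfl, by rw [hA.last]; exact P.btw_left _ _⟩

lemma Arms.al_zero (hA : Arms G n A s t) {k a : Fin 3} (hak : a ≠ k) :
    al P n A s t k a 0 + 1 = #(SI P n A s t a) + #(TI P n A s t a) := by
  have h1 : cnt (SI P n A s t a) (fun x => 0 < x) + 1 = #(SI P n A s t a) := by
    have := cnt_lt_gt (hA.zero_mem (P := P) a)
    have h2 : cnt (SI P n A s t a) (fun x => x < 0) = 0 := by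
      unfold cnt; simp
    omega
  have h2 : cnt (TI P n A s t a) (fun y => Around P A s t a 0 y) = #(TI P n A s t a) := by
    apply cnt_all
    intro y hy
    unfold Around
    rw [hA.zero]
    exact ⟨P.btw_left _ _, P.btw_symm (mem_TI.1 hy).2⟩
  unfold al
  rw [if_neg hak, h2]
  have : cnt (SI P n A s t a) (fun x => 0 < x) + #(TI P n A s t a) + 1 =
    #(SI P n A s t a) + #(TI P n A s t a) := by omega
  exact_mod_cast this

lemma Arms.be_last (hA : Arms G n A s t) {k a : Fin 3} (hak : a ≠ k) :
    be P n A s t k a (n a) + 1 = #(SI P n A s t a) + #(TI P n A s t a) := by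
  have h1 : cnt (TI P n A s t a) (fun x => x < n a) + 1 = #(TI P n A s t a) := by
    have := cnt_lt_gt (hA.last_mem (P := P) a)
    have h2 : cnt (TI P n A s t a) (fun x => n a < x) = 0 := by
      have h3 : cnt (TI P n A s t a) (fun x => n a < x) ≤ cnt (TI P n A s t a) (fun _ => False) := by
        apply cnt_le
        intro x hx h4
        have := (mem_TI.1 hx).1
        omega
      have h5 : cnt (TI P n A s t a) (fun _ => False) = 0 := by
        unfold cnt; simp
      omega
    omega
  have h2 : cnt (SI P n A s t a) (fun x => Around P A s t a x (n a)) = #(SI P n A s t a) := by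
    apply cnt_all
    intro y hy
    unfold Around
    rw [hA.last]
    exact ⟨(mem_SI.1 hy).2, P.btw_right _ _⟩
  unfold be
  rw [if_neg hak, h2]
  have : cnt (TI P n A s t a) (fun x => x < n a) + #(SI P n A s t a) + 1 =
    #(SI P n A s t a) + #(TI P n A s t a) := by omega
  exact_mod_cast this

lemma al_nonneg (k a : Fin 3) (i : ℕ) : 0 ≤ al P n A s t k a i := by
  unfold al; split_ifs
  · exact le_rfl
  · exact Nat.cast_nonneg _

lemma be_nonneg (k a : Fin 3) (i : ℕ) : 0 ≤ be P n A s t k a i := by
  unfold be; split_ifs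
  · exact le_rfl
  · exact Nat.cast_nonneg _

lemma Arms.al_lt (hA : Arms G n A s t) (hc : P.Consistent) {k a : Fin 3} (hak : a ≠ k) {i : ℕ}
    (hi : i ∈ SI P n A s t a) (hi' : i + 1 ∈ SI P n A s t a) :
    al P n A s t k a (i + 1) < al P n A s t k a i := by
  have h1 : cnt (SI P n A s t a) (fun x => i + 1 < x) < cnt (SI P n A s t a) (fun x => i < x) := by
    have e1 := cnt_lt_gt hi
    have e2 := cnt_lt_gt hi'
    have e3 : cnt (SI P n A s t a) (fun x => x < i) + 1 ≤
        cnt (SI P n A s t a) (fun x => x < i + 1) := by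
      classical
      unfold cnt
      have : insert i ((SI P n A s t a).filter (fun x => x < i)) ⊆
          (SI P n A s t a).filter (fun x => x < i + 1) := by
        intro x hx
        rw [mem_insert, mem_filter] at hx
        rw [mem_filter]
        rcases hx with rfl | hx
        · exact ⟨hi, by omega⟩
        · exact ⟨hx.1, by omega⟩
      have h2 := card_le_card this
      rw [card_insert_of_notMem (by simp)] at h2
      convert h2
    omega
  have h2 : cnt (TI P n A s t a) (fun y => Around P A s t a (i + 1) y) ≤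
      cnt (TI P n A s t a) (fun y => Around P A s t a i y) := by
    apply cnt_le
    intro y hy hT
    have h1 := mem_SI.1 hi'
    have h2 := mem_TI.1 hy
    exact hA.around_mono_left hc (by omega) (hA.ns_lt_nt hc h1.1 h1.2 h2.2) h2.1 hT
  unfold al
  rw [if_neg hak, if_neg hak]
  exact_mod_cast (by omega : cnt (SI P n A s t a) (fun x => i + 1 < x) +
    cnt (TI P n A s t a) (fun y => Around P A s t a (i + 1) y) <
    cnt (SI P n A s t a) (fun x => i < x) + cnt (TI P n A s t a) (fun y => Around P A s t a i y))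

lemma Arms.be_lt (hA : Arms G n A s t) (hc : P.Consistent) {k a : Fin 3} (hak : a ≠ k) {i : ℕ}
    (hi : i ∈ TI P n A s t a) (hi' : i + 1 ∈ TI P n A s t a) :
    be P n A s t k a i < be P n A s t k a (i + 1) := by
  have h1 : cnt (TI P n A s t a) (fun x => x < i) < cnt (TI P n A s t a) (fun x => x < i + 1) := by
    classical
    unfold cnt
    have : insert i ((TI P n A s t a).filter (fun x => x < i)) ⊆
        (TI P n A s t a).filter (fun x => x < i + 1) := by
      intro x hx
      rw [mem_insert, mem_filter] at hx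
      rw [mem_filter]
      rcases hx with rfl | hx
      · exact ⟨hi, by omega⟩
      · exact ⟨hx.1, by omega⟩
    have h2 := card_le_card this
    rw [card_insert_of_notMem (by simp)] at h2
    have h3 : #((TI P n A s t a).filter (fun x => x < i)) <
      #((TI P n A s t a).filter (fun x => x < i + 1)) := by omega
    convert h3
  have h2 : cnt (SI P n A s t a) (fun x => Around P A s t a x i) ≤
      cnt (SI P n A s t a) (fun x => Around P A s t a x (i + 1)) := by
    apply cnt_le
    intro y hy hT
    have h1 := mem_SI.1 hy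
    have h2 := mem_TI.1 hi
    have h3 := mem_TI.1 hi'
    exact hA.around_mono_right hc (by omega) (hA.ns_lt_nt hc h1.1 h1.2 h2.2) h3.1 hT
  unfold be
  rw [if_neg hak, if_neg hak]
  exact_mod_cast (by omega : cnt (TI P n A s t a) (fun x => x < i) +
    cnt (SI P n A s t a) (fun x => Around P A s t a x i) <
    cnt (TI P n A s t a) (fun x => x < i + 1) +
    cnt (SI P n A s t a) (fun x => Around P A s t a x (i + 1)))

theorem Arms.exists_good (hA : Arms G n A s t) (hc : P.Consistent) (m : Fin 3 → ℕ → ℝ)
    (hm : MidReal P n A s t m) :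
    ∃ w f X L, Good P n A s t w f X L := by
  classical
  obtain ⟨k, hk⟩ := hA.exists_k hc
  obtain ⟨L, hL0, hL⟩ : ∃ L : ℝ, 0 < L ∧ ∀ a i, i ≤ n a → |m a i| < L := by
    refine ⟨1 + ∑ a : Fin 3, ∑ i ∈ range (n a + 1), |m a i|, ?_, ?_⟩
    · have : 0 ≤ ∑ a : Fin 3, ∑ i ∈ range (n a + 1), |m a i| :=
        sum_nonneg (fun a _ => sum_nonneg (fun i _ => abs_nonneg _))
      linarith
    · intro a i hi
      have h1 : |m a i| ≤ ∑ i ∈ range (n a + 1), |m a i| :=
        single_le_sum (f := fun i => |m a i|) (fun i _ => abs_nonneg _) (mem_range.2 (by omega))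
      have h2 : ∑ i ∈ range (n a + 1), |m a i| ≤ ∑ a : Fin 3, ∑ i ∈ range (n a + 1), |m a i| :=
        single_le_sum (f := fun a : Fin 3 => ∑ i ∈ range (n a + 1), |m a i|)
          (fun a _ => sum_nonneg (fun i _ => abs_nonneg _)) (mem_univ a)
      linarith
  set f := ff P n A s t k m L with hf
  have f_ns : ∀ a i, P.Btw (A a i) s t → f a i = - L - al P n A s t k a i := by
    intro a i h; simp only [hf, ff]; rw [if_pos h]
  have f_nt : ∀ a i, P.Btw (A a i) t s → f a i = L + be P n A s t k a i := by
    intro a i h; simp only [hf, ff]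
    rw [if_neg (fun h' => PathSystem.not_both hc hA.st h' h), if_pos h]
  have f_mid : ∀ a i, ¬ P.Btw (A a i) s t → ¬ P.Btw (A a i) t s → f a i = m a i := by
    intro a i h h'; simp only [hf, ff]
    rw [if_neg h, if_neg h']
  have hmid : ∀ a i, i ≤ n a → - L < m a i ∧ m a i < L := fun a i hi => abs_lt.1 (hL a i hi)
  -- monotonicity
  have mono : ∀ a, ∀ l < n a, f a l < f a (l + 1) := by
    intro a l hl
    have hm1 := hmid a l hl.le
    have hm2 := hmid a (l + 1) (by omega)
    have ha1 := al_nonneg (P := P) (n := n) (A := A) (s := s) (t := t) k a l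
    have hb1 := be_nonneg (P := P) (n := n) (A := A) (s := s) (t := t) k a (l + 1)
    by_cases h1 : P.Btw (A a l) s t
    · rw [f_ns a l h1]
      by_cases h2 : P.Btw (A a (l + 1)) s t
      · rw [f_ns a _ h2]
        by_cases hak : a = k
        · subst hak
          have := hA.ns_lt (a := a) (i := l + 1) (by omega) h2
          exact (hA.k_not_ns hc hk (by omega) this h2).elim
        · have := hA.al_lt hc hak (mem_SI.2 ⟨hl.le, h1⟩) (mem_SI.2 ⟨hl, h2⟩)
          linarith
      · by_cases h3 : P.Btw (A a (l + 1)) t s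
        · rw [f_nt a _ h3]; linarith
        · rw [f_mid a _ h2 h3]; linarith [hm2.1]
    · have h2 : ¬ P.Btw (A a (l + 1)) s t := by
        intro h2
        exact h1 (hA.ns_mono hc (a := a) (i' := l) (i := l + 1) (by omega)
          (hA.ns_lt (by omega) h2) h2)
      by_cases h3 : P.Btw (A a l) t s
      · have h4 := hA.nt_mono hc (a := a) (i := l) (i' := l + 1) (by omega) (hA.nt_pos h3)
          (by omega) h3
        rw [f_nt a _ h3, f_nt a _ h4]
        by_cases hak : a = k
        · subst hak
          exact (hA.k_not_nt hc hk (hA.nt_pos h3) hl h3).elim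
        · have := hA.be_lt hc hak (mem_TI.2 ⟨hl.le, h3⟩) (mem_TI.2 ⟨hl, h4⟩)
          linarith
      · rw [f_mid a _ h1 h3]
        by_cases h4 : P.Btw (A a (l + 1)) t s
        · rw [f_nt a _ h4]; linarith [hm1.2]
        · rw [f_mid a _ h2 h4]
          have hl0 : 0 < l := by
            rcases Nat.eq_zero_or_pos l with h5 | h5
            · exfalso
              apply h1
              rw [h5, hA.zero]; exact P.btw_left _ _
            · exact h5
          have hl1 : l + 1 < n a := by
            rcases Nat.eq_or_lt_of_le (show l + 1 ≤ n a by omega) with h5 | h5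
            · exfalso
              apply h4
              rw [h5, hA.last]; exact P.btw_left _ _
            · exact h5
          exact hm.mono a l ⟨hl0, hl, h1, h3⟩ ⟨by omega, hl1, h2, h4⟩
  have monole : ∀ a i j, i ≤ j → j ≤ n a → f a i ≤ f a j := by
    intro a i j hij hj
    obtain ⟨d, rfl⟩ := Nat.exists_eq_add_of_le hij
    induction d with
    | zero => exact le_rfl
    | succ d ih =>
      have := ih (by omega) (by omega)
      have := mono a (i + d) (by omega)
      have e : i + (d + 1) = i + d + 1 := by omega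
      rw [e]; linarith
  obtain ⟨w, hw⟩ := hA.exists_w f
  have f0 : ∀ a, f a 0 = - (L + al P n A s t k a 0) := by
    intro a
    rw [f_ns a 0 (by rw [hA.zero]; exact P.btw_left _ _)]; ring
  have fn : ∀ a, f a (n a) = L + al P n A s t k a 0 := by
    intro a
    rw [f_nt a _ (by rw [hA.last]; exact P.btw_left _ _)]
    by_cases hak : a = k
    · simp [be, al, hak]
    · have := hA.al_zero (P := P) hak
      have := hA.be_last (P := P) hak
      linarith
  have ar0 : ∀ a i j, i < j → j ≤ n a → i ∈ SI P n A s t a → j ∈ TI P n A s t a →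
      (Around P A s t a i j → al P n A s t k a 0 ≤ al P n A s t k a i + be P n A s t k a j) ∧
      (¬ Around P A s t a i j → al P n A s t k a i + be P n A s t k a j ≤ al P n A s t k a 0) := by
    intro a i j hij hj hi' hj'
    by_cases hak : a = k
    · simp [be, al, hak]
    · have h1 := hA.al_zero (P := P) hak
      have h2 := hA.merge_ar hc hi' hj'
      have e1 : al P n A s t k a i = ((cnt (SI P n A s t a) (fun x => i < x) +
        cnt (TI P n A s t a) (fun y => Around P A s t a i y) : ℕ) : ℝ) := by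
        unfold al; rw [if_neg hak]
      have e2 : be P n A s t k a j = ((cnt (TI P n A s t a) (fun y => y < j) +
        cnt (SI P n A s t a) (fun x => Around P A s t a x j) : ℕ) : ℝ) := by
        unfold be; rw [if_neg hak]
      rw [e1, e2]
      constructor
      · intro h3
        have h4 := h2.1 h3
        have h5 : ((#(SI P n A s t a) + #(TI P n A s t a) : ℕ) : ℝ) ≤
          (((cnt (SI P n A s t a) (fun x => i < x) +
        cnt (TI P n A s t a) (fun y => Around P A s t a i y)) + (cnt (TI P n A s t a) (fun y => y < j) +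
        cnt (SI P n A s t a) (fun x => Around P A s t a x j)) : ℕ) : ℝ) := by exact_mod_cast h4
        push_cast at h5 ⊢
        linarith
      · intro h3
        have h4 := h2.2 h3
        have h5 : (((cnt (SI P n A s t a) (fun x => i < x) +
        cnt (TI P n A s t a) (fun y => Around P A s t a i y)) + (cnt (TI P n A s t a) (fun y => y < j) +
        cnt (SI P n A s t a) (fun x => Around P A s t a x j)) + 2 : ℕ) : ℝ) ≤
          ((#(SI P n A s t a) + #(TI P n A s t a) : ℕ) : ℝ) := by exact_mod_cast h4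
        push_cast at h5 ⊢
        linarith
  refine ⟨w, f, fun a => L + al P n A s t k a 0, L, ?_⟩
  refine ⟨hw, mono, hL0, ?_, f0, fn, ?_, ?_, ?_, ?_, ?_, ?_, ?_⟩
  · intro a
    have := al_nonneg (P := P) (n := n) (A := A) (s := s) (t := t) k a 0
    linarith
  · have h1 := hA.up_D hc w (a := k) (fun l => f k l / 2) (i := 0) (m := n k) (v := t)
      (by omega) le_rfl
      (by
        intro l _ h2 e
        rw [← hA.last k] at e
        have := hA.inj_arm le_rfl h2.le e
        omega)
      (by intro _; rw [hA.zero]; simpa using hk) (hw k)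
    rw [hA.zero, hA.last, P.D_self] at h1
    rw [h1, f0, fn]
    simp only [al, if_true]
    ring
  · intro a i hi h
    rw [f_ns a i h]
    have := al_nonneg (P := P) (n := n) (A := A) (s := s) (t := t) k a i
    linarith
  · intro a i h0 hi h
    rw [f_nt a i h]
    have := be_nonneg (P := P) (n := n) (A := A) (s := s) (t := t) k a i
    linarith
  · intro a i h0 hi h1 h2
    rw [f_mid a i h1 h2]
    have := hmid a i hi.le
    exact ⟨this.1.le, this.2.le⟩
  · intro a b i j hab h0 hi h0' hj h1 h2 h3 h4
    rw [f_mid a i h1 h2, f_mid b j h3 h4]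
    exact hm.sgn a b i j hab ⟨h0, hi, h1, h2⟩ ⟨h0', hj, h3, h4⟩
  · intro a i j hij hj har
    have h1 := hA.around_ns hc hij hj har
    have h2 := hA.around_nt hc hij hj har
    rw [f_ns a i h1, f_nt a j h2]
    have := (ar0 a i j hij hj (mem_SI.2 ⟨by omega, h1⟩) (mem_TI.2 ⟨hj, h2⟩)).1 har
    linarith
  · intro a i j hij hj har
    have b1 := monole a j (n a) hj le_rfl
    have b2 := monole a 0 i (by omega) (by omega)
    rw [fn] at b1
    rw [f0] at b2
    by_cases h1 : P.Btw (A a i) s t
    · by_cases h2 : P.Btw (A a j) t s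
      · rw [f_ns a i h1, f_nt a j h2]
        have := (ar0 a i j hij hj (mem_SI.2 ⟨by omega, h1⟩) (mem_TI.2 ⟨hj, h2⟩)).2 har
        linarith
      · have : f a j ≤ L := by
          by_cases h3 : P.Btw (A a j) s t
          · rw [f_ns a j h3]
            have := al_nonneg (P := P) (n := n) (A := A) (s := s) (t := t) k a j
            linarith
          · rw [f_mid a j h3 h2]
            exact (hmid a j hj).2.le
        linarith
    · have : - L ≤ f a i := by
        by_cases h2 : P.Btw (A a i) t s
        · rw [f_nt a i h2]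
          have := be_nonneg (P := P) (n := n) (A := A) (s := s) (t := t) k a i
          linarith
        · rw [f_mid a i h1 h2]
          exact (hmid a i (by omega)).1.le
      linarith

/-- metrizability from mid coordinates -/
theorem Arms.metr (hA : Arms G n A s t)
    (hE : ∀ x y, G.Adj x y → ∃ a i, i < n a ∧ ((x = A a i ∧ y = A a (i + 1)) ∨
      (y = A a i ∧ x = A a (i + 1))))
    (hm : ∀ P : PathSystem G, P.Consistent → ∃ m, MidReal P n A s t m) : Metrizable G := by
  intro P hc
  obtain ⟨m, hm⟩ := hm P hc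
  obtain ⟨w, f, X, L, hg⟩ := hA.exists_good hc m hm
  refine ⟨w, ?_, hg.induces hA hc hE⟩
  intro e he
  induction e using Sym2.ind with
  | _ x y =>
    rw [SimpleGraph.mem_edgeSet] at he
    obtain ⟨a, i, hi, (⟨rfl, rfl⟩ | ⟨rfl, rfl⟩)⟩ := hE x y he
    · exact hg.w_nonneg hi
    · rw [Sym2.eq_swap]; exact hg.w_nonneg hi

end Pool.Agent.K7.H17.Theta
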