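import Pool.Agent.K7.H17.Theta.Chain

namespace Pool.Agent.K7.H17.Theta

open SimpleGraph

universe u

variable {V : Type u} {G : SimpleGraph V} {P : PathSystem G}
  {n : Fin 3 → ℕ} {A : Fin 3 → ℕ → V} {s t : V}

namespace Arms

lemma up_nx (hA : Arms G n A s t) (hc : P.Consistent) {a : Fin 3} {i m : ℕ} {v : V}
    (hm : m ≤ n a) (hv : ∀ l, i ≤ l → l < m → v ≠ A a l)
    (h : i < m → P.nx (A a i) v = A a (i + 1)) :
    ∀ l, i ≤ l → l < m → P.nx (A a l) v = A a (l + 1) := by
  intro l h1 h2
  have := PathSystem.chain_run hc (v := v) (fun j => A a (i + j)) (m - i)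
    (fun l hl => hv _ (by omega) (by omega)) (fun hh => by simpa using h (by omega))
    (fun l hl0 hl x hx => by
      have := hA.nbr a (i + l) x (by omega) (by omega) hx
      have e : i + l - 1 = i + (l - 1) := by omega
      rw [e] at this
      exact this) (l - i) (by omega)
  have e1 : i + (l - i) = l := by omega
  have e2 : i + (l - i + 1) = l + 1 := by omega
  simpa [e1, e2] using this

lemma up_btw (hA : Arms G n A s t) (hc : P.Consistent) {a : Fin 3} {i m : ℕ} {v : V}
    (hm : m ≤ n a) (hv : ∀ l, i ≤ l → l < m → v ≠ A a l)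
    (h : i < m → P.nx (A a i) v = A a (i + 1)) :
    ∀ l, i ≤ l → l ≤ m → P.Btw (A a i) (A a l) v := by
  intro l h1 h2
  have h3 := hA.up_nx hc hm hv h
  have := PathSystem.chain_btw hc (v := v) (fun j => A a (i + j)) (m - i)
    (fun l hl => hv _ (by omega) (by omega)) (fun l hl => h3 _ (by omega) (by omega)) (l - i) (by omega)
  have e1 : i + (l - i) = l := by omega
  simpa [e1] using this

lemma up_tail (hA : Arms G n A s t) (hc : P.Consistent) {a : Fin 3} {i m : ℕ} {v z : V}
    (him : i ≤ m) (hm : m ≤ n a) (hv : ∀ l, i ≤ l → l < m → v ≠ A a l)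
    (h : i < m → P.nx (A a i) v = A a (i + 1)) (hz : ∀ l, i ≤ l → l < m → z ≠ A a l)
    (hb : P.Btw (A a i) z v) : P.Btw (A a m) z v := by
  have h3 := hA.up_nx hc hm hv h
  have := PathSystem.chain_tail hc (v := v) (z := z) (fun j => A a (i + j)) (m - i)
    (fun l hl => hv _ (by omega) (by omega)) (fun l hl => h3 _ (by omega) (by omega))
    (fun l hl => hz _ (by omega) (by omega)) (by simpa using hb)
  have e1 : i + (m - i) = m := by omega
  simpa [e1] using this

lemma up_D (hA : Arms G n A s t) (hc : P.Consistent) (w : Sym2 V → ℝ) {a : Fin 3} (g : ℕ → ℝ)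
    {i m : ℕ} {v : V}
    (him : i ≤ m) (hm : m ≤ n a) (hv : ∀ l, i ≤ l → l < m → v ≠ A a l)
    (h : i < m → P.nx (A a i) v = A a (i + 1))
    (hw : ∀ l < n a, w s(A a l, A a (l + 1)) = g (l + 1) - g l) :
    P.D w (A a i) v = g m - g i + P.D w (A a m) v := by
  have h3 := hA.up_nx hc hm hv h
  have := PathSystem.chain_D hc w (v := v) (fun j => A a (i + j)) (fun j => g (i + j)) (m - i)
    (fun l hl => hv _ (by omega) (by omega)) (fun l hl => h3 _ (by omega) (by omega))
    (fun l hl => hw _ (by omega))
  have e1 : i + (m - i) = m := by omega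
  simpa [e1] using this

lemma down_nx (hA : Arms G n A s t) (hc : P.Consistent) {a : Fin 3} {i m : ℕ} {v : V}
    (hi : i ≤ n a) (hv : ∀ l, m < l → l ≤ i → v ≠ A a l)
    (h : m < i → P.nx (A a i) v = A a (i - 1)) :
    ∀ l, m < l → l ≤ i → P.nx (A a l) v = A a (l - 1) := by
  intro l h1 h2
  have := PathSystem.chain_run hc (v := v) (fun j => A a (i - j)) (i - m)
    (fun l hl => hv _ (by omega) (by omega)) (fun hh => by simpa using h (by omega))
    (fun l hl0 hl x hx => by
      have := hA.nbr a (i - l) x (by omega) (by omega) hx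
      have e : i - l - 1 = i - (l + 1) := by omega
      have e' : i - l + 1 = i - (l - 1) := by omega
      rw [e, e'] at this
      exact this.symm) (i - l) (by omega)
  have e1 : i - (i - l) = l := by omega
  have e2 : i - (i - l + 1) = l - 1 := by omega
  simpa [e1, e2] using this

lemma down_btw (hA : Arms G n A s t) (hc : P.Consistent) {a : Fin 3} {i m : ℕ} {v : V}
    (hi : i ≤ n a) (hv : ∀ l, m < l → l ≤ i → v ≠ A a l)
    (h : m < i → P.nx (A a i) v = A a (i - 1)) :
    ∀ l, m ≤ l → l ≤ i → P.Btw (A a i) (A a l) v := by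
  intro l h1 h2
  have h3 := hA.down_nx hc hi hv h
  have := PathSystem.chain_btw hc (v := v) (fun j => A a (i - j)) (i - m)
    (fun l hl => hv _ (by omega) (by omega)) (fun l hl => by
      have := h3 (i - l) (by omega) (by omega)
      have e : i - l - 1 = i - (l + 1) := by omega
      rw [e] at this
      exact this) (i - l) (by omega)
  have e1 : i - (i - l) = l := by omega
  simpa [e1] using this

lemma down_tail (hA : Arms G n A s t) (hc : P.Consistent) {a : Fin 3} {i m : ℕ} {v z : V}
    (hmi : m ≤ i) (hi : i ≤ n a) (hv : ∀ l, m < l → l ≤ i → v ≠ A a l)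
    (h : m < i → P.nx (A a i) v = A a (i - 1)) (hz : ∀ l, m < l → l ≤ i → z ≠ A a l)
    (hb : P.Btw (A a i) z v) : P.Btw (A a m) z v := by
  have h3 := hA.down_nx hc hi hv h
  have := PathSystem.chain_tail hc (v := v) (z := z) (fun j => A a (i - j)) (i - m)
    (fun l hl => hv _ (by omega) (by omega)) (fun l hl => by
      have := h3 (i - l) (by omega) (by omega)
      have e : i - l - 1 = i - (l + 1) := by omega
      rw [e] at this
      exact this)
    (fun l hl => hz _ (by omega) (by omega)) (by simpa using hb)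
  have e1 : i - (i - m) = m := by omega
  simpa [e1] using this

lemma down_D (hA : Arms G n A s t) (hc : P.Consistent) (w : Sym2 V → ℝ) {a : Fin 3} (g : ℕ → ℝ)
    {i m : ℕ} {v : V}
    (hmi : m ≤ i) (hi : i ≤ n a) (hv : ∀ l, m < l → l ≤ i → v ≠ A a l)
    (h : m < i → P.nx (A a i) v = A a (i - 1))
    (hw : ∀ l < n a, w s(A a l, A a (l + 1)) = g (l + 1) - g l) :
    P.D w (A a i) v = g i - g m + P.D w (A a m) v := by
  have h3 := hA.down_nx hc hi hv h
  have := PathSystem.chain_D hc w (v := v) (fun j => A a (i - j)) (fun j => - g (i - j)) (i - m)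
    (fun l hl => hv _ (by omega) (by omega)) (fun l hl => by
      have := h3 (i - l) (by omega) (by omega)
      have e : i - l - 1 = i - (l + 1) := by omega
      rw [e] at this
      exact this)
    (fun l hl => by
      have := hw (i - (l + 1)) (by omega)
      have e : i - (l + 1) + 1 = i - l := by omega
      rw [e] at this
      rw [Sym2.eq_swap, this]
      ring)
  have e1 : i - (i - m) = m := by omega
  simp only [e1, Nat.sub_zero] at this
  rw [this]; ring

/-! ### Facts about one path system -/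

/-- an interior vertex goes up or down -/
lemma up_or_down (hA : Arms G n A s t) (hc : P.Consistent) {a : Fin 3} {i : ℕ} {v : V}
    (h0 : 0 < i) (hi : i < n a) (hv : v ≠ A a i) :
    P.nx (A a i) v = A a (i - 1) ∨ P.nx (A a i) v = A a (i + 1) :=
  hA.nbr a i _ h0 hi (PathSystem.nx_adj hc (Ne.symm hv))

/-- `v` outside arm `a`, going down: passes `s` -/
lemma down_s (hA : Arms G n A s t) (hc : P.Consistent) {a : Fin 3} {i : ℕ} {v : V}
    (h0 : 0 < i) (hi : i < n a) (hv : NotInt n A a v) (h : P.nx (A a i) v = A a (i - 1)) :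
    P.Btw (A a i) s v := by
  have := hA.down_btw hc (a := a) (i := i) (m := 0) (v := v) hi.le
    (fun l h1 h2 => hv l h1 (by omega)) (fun _ => h) 0 le_rfl (by omega)
  rwa [hA.zero] at this

lemma up_t (hA : Arms G n A s t) (hc : P.Consistent) {a : Fin 3} {i : ℕ} {v : V}
    (h0 : 0 < i) (hi : i < n a) (hv : NotInt n A a v) (h : P.nx (A a i) v = A a (i + 1)) :
    P.Btw (A a i) t v := by
  have := hA.up_btw hc (a := a) (i := i) (m := n a) (v := v) le_rfl
    (fun l h1 h2 => hv l (by omega) (by omega)) (fun _ => h) (n a) (by omega) le_rfl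
  rwa [hA.last] at this

lemma notInt_s (hA : Arms G n A s t) (a : Fin 3) : NotInt n A a s :=
  fun l h1 h2 => Ne.symm (hA.ne_s a l h1 h2)

lemma notInt_t (hA : Arms G n A s t) (a : Fin 3) : NotInt n A a t :=
  fun l h1 h2 => Ne.symm (hA.ne_t a l h1 h2)

lemma notInt_of_ne (hA : Arms G n A s t) {a b : Fin 3} (hab : a ≠ b) {j : ℕ} (hj : j ≤ n b) :
    NotInt n A a (A b j) := by
  intro l h1 h2 e
  rcases Nat.eq_zero_or_pos j with hj0 | hj0
  · rw [hj0, hA.zero] at e
    exact hA.ne_s a l h1 h2 e.symm
  · rcases Nat.lt_or_ge j (n b) with hj1 | hj1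
    · exact hab (hA.inj b j a l hj0 hj1 h1 h2 e).1.symm
    · have : j = n b := by omega
      rw [this, hA.last] at e
      exact hA.ne_t a l h1 h2 e.symm

/-- `Btw x s t` for an interior vertex `x` means that the path to `t` goes down -/
lemma ns_down (hA : Arms G n A s t) (hc : P.Consistent) {a : Fin 3} {i : ℕ}
    (h0 : 0 < i) (hi : i < n a) (h : P.Btw (A a i) s t) : P.nx (A a i) t = A a (i - 1) := by
  rcases hA.up_or_down hc h0 hi (Ne.symm (hA.ne_t a i h0 hi)) with h1 | h1
  · exact h1
  · exfalso
    have := hA.up_tail hc (a := a) (i := i) (m := n a) (v := t) (z := s) hi.le le_rfl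
      (fun l h1 h2 => Ne.symm (hA.ne_t a l (by omega) h2)) (fun _ => h1)
      (fun l h1 h2 => Ne.symm (hA.ne_s a l (by omega) h2)) h
    rw [hA.last] at this
    exact hA.st (P.btw_self this)

lemma nt_up (hA : Arms G n A s t) (hc : P.Consistent) {a : Fin 3} {i : ℕ}
    (h0 : 0 < i) (hi : i < n a) (h : P.Btw (A a i) t s) : P.nx (A a i) s = A a (i + 1) := by
  have := hA.rev.ns_down hc (a := a) (i := n a - i) (by omega) (by omega)
    (by
      have e : n a - (n a - i) = i := by omega
      simpa [e] using h)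
  have e : n a - (n a - i) = i := by omega
  have e' : n a - (n a - i - 1) = i + 1 := by omega
  simpa [e, e'] using this

end Arms

end Pool.Agent.K7.H17.Theta
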