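import Pool.Agent.K7.H17.Theta.Inst

namespace Pool.Agent.K7.H17.Theta

open SimpleGraph

/-- the six monotone `2 × 2` sign patterns, listed as `11, 12, 21, 22` -/
def pb (p : Fin 6) : Bool × Bool × Bool × Bool :=
  match p with
  | 0 => (false, false, false, false)
  | 1 => (false, false, false, true)
  | 2 => (false, true, false, true)
  | 3 => (false, false, true, true)
  | 4 => (false, true, true, true)
  | 5 => (true, true, true, true)

def codes : List ℕ := [
   3255, 9505, 9655, 10880, 10905, 11055, 9505, 9505, 12630, 14505, 14505, 14655, 9511, 12630, 12630, 14505, 14505, 14655,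
   10760, 14505, 14505, 14505, 14505, 14655, 10761, 14505, 14505, 14505, 14505, 14655, 10767, 14511, 14511, 14511, 14511, 14661,
   3505, 3505, 9780, 7255, 10405, 11055, 6510, 9755, 12880, 10380, 13505, 14780, 9516, 12880, 12880, 13505, 13505, 14780,
   7015, 10885, 14010, 14755, 14755, 14780, 10141, 14010, 14010, 14755, 14755, 14780, 10767, 14516, 14516, 14636, 14636, 14661,
   3511, 3630, 9905, 3630, 9905, 11180, 3516, 9880, 13005, 9880, 13005, 14905, 6517, 13005, 13005, 13005, 13005, 14905,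
   3521, 3645, 13020, 14880, 14880, 14905, 7142, 13020, 13020, 14880, 14880, 14905, 7023, 10892, 14017, 14761, 14761, 14786,
   3560, 3705, 3705, 3705, 3705, 7455, 3415, 6685, 9955, 7310, 9955, 10580, 9521, 12645, 13080, 13020, 13080, 13705,
   7165, 7165, 10290, 10915, 11060, 14955, 9521, 12645, 13415, 14520, 14185, 14955, 10772, 14521, 14521, 14521, 14666, 14811,
   3561, 3705, 3705, 3705, 3705, 7455, 3541, 6810, 9955, 6810, 9955, 10580, 6542, 13020, 13080, 13020, 13080, 13705,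
   3521, 3645, 13020, 7415, 11185, 14955, 7167, 13020, 13020, 13020, 14310, 14955, 7023, 10917, 10917, 14771, 14791, 14811,
   3567, 3711, 3711, 3711, 3711, 7461, 3567, 3716, 6836, 3716, 6836, 7461, 3423, 6692, 9961, 7317, 9961, 10586,
   3572, 3721, 3721, 3721, 7466, 11211, 3423, 7317, 9971, 7317, 10591, 11211, 7173, 7173, 10298, 10923, 11067, 14961]

/-- weak sign condition on a sum (shifted by `4`) -/
def wk (b : Bool) (v : ℕ) : Bool := if b then Nat.ble 4 v else Nat.ble v 4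

def chkP (p : Fin 6) (a1 a2 b1 b2 : ℕ) : Bool :=
  wk (pb p).1 (a1 + b1) && wk (pb p).2.1 (a1 + b2) && wk (pb p).2.2.1 (a2 + b1) &&
    wk (pb p).2.2.2 (a2 + b2)

def chk (p q r : Fin 6) (c : ℕ) : Bool :=
  let x1 := c % 5
  let x2 := c / 5 % 5
  let y1 := c / 25 % 5
  let y2 := c / 125 % 5
  let z1 := c / 625 % 5
  let z2 := c / 3125 % 5
  Nat.blt x1 x2 && Nat.blt y1 y2 && Nat.blt z1 z2 && chkP p x1 x2 y1 y2 && chkP q x1 x2 z1 z2 &&
    chkP r y1 y2 z1 z2

lemma chk_all : ∀ p q r : Fin 6, chk p q r (codes.getD (36 * p.1 + 6 * q.1 + r.1) 0) = true := by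
  decide

/-- weak sign condition -/
def Wk (b : Bool) (v : ℝ) : Prop := (b = true → 0 ≤ v) ∧ (b = false → v ≤ 0)

def CP (p : Fin 6) (a1 a2 b1 b2 : ℝ) : Prop :=
  Wk (pb p).1 (a1 + b1) ∧ Wk (pb p).2.1 (a1 + b2) ∧ Wk (pb p).2.2.1 (a2 + b1) ∧
    Wk (pb p).2.2.2 (a2 + b2)

lemma Wk_of {b : Bool} {u v : ℕ} (h : wk b (u + v) = true) : Wk b (((u : ℝ) - 2) + ((v : ℝ) - 2)) := by
  constructor
  · intro hb
    rw [hb] at h
    simp only [wk, if_true, Nat.ble_eq] at h
    have : (4 : ℝ) ≤ (u : ℝ) + v := by exact_mod_cast h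
    linarith
  · intro hb
    rw [hb] at h
    simp only [wk, Bool.false_eq_true, if_false, Nat.ble_eq] at h
    have : (u : ℝ) + v ≤ 4 := by exact_mod_cast h
    linarith

lemma CP_of {p : Fin 6} {a1 a2 b1 b2 : ℕ} (h : chkP p a1 a2 b1 b2 = true) :
    CP p ((a1 : ℝ) - 2) ((a2 : ℝ) - 2) ((b1 : ℝ) - 2) ((b2 : ℝ) - 2) := by
  unfold chkP at h
  simp only [Bool.and_eq_true] at h
  exact ⟨Wk_of h.1.1.1, Wk_of h.1.1.2, Wk_of h.1.2, Wk_of h.2⟩

lemma real222 (p q r : Fin 6) : ∃ x1 x2 y1 y2 z1 z2 : ℝ, x1 < x2 ∧ y1 < y2 ∧ z1 < z2 ∧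
    CP p x1 x2 y1 y2 ∧ CP q x1 x2 z1 z2 ∧ CP r y1 y2 z1 z2 := by
  have h := chk_all p q r
  generalize codes.getD (36 * p.1 + 6 * q.1 + r.1) 0 = c at h
  unfold chk at h
  simp only [Bool.and_eq_true, Nat.blt_eq] at h
  obtain ⟨⟨⟨⟨⟨h1, h2⟩, h3⟩, h4⟩, h5⟩, h6⟩ := h
  have g1 : ((c % 5 : ℕ) : ℝ) < ((c / 5 % 5 : ℕ) : ℝ) := by exact_mod_cast h1
  have g2 : ((c / 25 % 5 : ℕ) : ℝ) < ((c / 125 % 5 : ℕ) : ℝ) := by exact_mod_cast h2
  have g3 : ((c / 625 % 5 : ℕ) : ℝ) < ((c / 3125 % 5 : ℕ) : ℝ) := by exact_mod_cast h3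
  exact ⟨((c % 5 : ℕ) : ℝ) - 2, ((c / 5 % 5 : ℕ) : ℝ) - 2, ((c / 25 % 5 : ℕ) : ℝ) - 2,
    ((c / 125 % 5 : ℕ) : ℝ) - 2, ((c / 625 % 5 : ℕ) : ℝ) - 2, ((c / 3125 % 5 : ℕ) : ℝ) - 2,
    by linarith, by linarith, by linarith, CP_of h4, CP_of h5, CP_of h6⟩

lemma exists_pat (t11 t12 t21 t22 : Prop) (h1 : t11 → t12) (h2 : t11 → t21) (h3 : t12 → t22)
    (h4 : t21 → t22) : ∃ p : Fin 6, (t11 ↔ (pb p).1 = true) ∧ (t12 ↔ (pb p).2.1 = true) ∧
      (t21 ↔ (pb p).2.2.1 = true) ∧ (t22 ↔ (pb p).2.2.2 = true) := by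
  by_cases c11 : t11
  · have c12 := h1 c11
    have c21 := h2 c11
    have c22 := h3 c12
    exact ⟨5, by simp [pb, c11], by simp [pb, c12], by simp [pb, c21], by simp [pb, c22]⟩
  · by_cases c12 : t12
    · have c22 := h3 c12
      by_cases c21 : t21
      · exact ⟨4, by simp [pb, c11], by simp [pb, c12], by simp [pb, c21], by simp [pb, c22]⟩
      · exact ⟨2, by simp [pb, c11], by simp [pb, c12], by simp [pb, c21], by simp [pb, c22]⟩
    · by_cases c21 : t21
      · have c22 := h4 c21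
        exact ⟨3, by simp [pb, c11], by simp [pb, c12], by simp [pb, c21], by simp [pb, c22]⟩
      · by_cases c22 : t22
        · exact ⟨1, by simp [pb, c11], by simp [pb, c12], by simp [pb, c21], by simp [pb, c22]⟩
        · exact ⟨0, by simp [pb, c11], by simp [pb, c12], by simp [pb, c21], by simp [pb, c22]⟩

universe u

variable {V : Type u} {G : SimpleGraph V} {P : PathSystem G}
  {n : Fin 3 → ℕ} {A : Fin 3 → ℕ → V} {s t : V}

lemma Arms.sgn_of_pat (hA : Arms G n A s t) (hc : P.Consistent) {a b : Fin 3} (hab : a ≠ b)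
    (hna : n a = 3) (hnb : n b = 3)
    (ha1 : IsMid P n A s t a 1) (ha2 : IsMid P n A s t a 2)
    (hb1 : IsMid P n A s t b 1) (hb2 : IsMid P n A s t b 2) :
    ∃ p : Fin 6, ∀ m : Fin 3 → ℕ → ℝ, CP p (m a 1) (m a 2) (m b 1) (m b 2) →
      SgnCond P n A s t m a b := by
  obtain ⟨p, h1, h2, h3, h4⟩ := exists_pat (P.Btw (A a 1) t (A b 1)) (P.Btw (A a 1) t (A b 2))
    (P.Btw (A a 2) t (A b 1)) (P.Btw (A a 2) t (A b 2))
    (fun h => hA.mid_mono_right hc hab ha1 hb1 hb2 (by omega) h)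
    (fun h => hA.mid_mono_left hc hab ha1 ha2 hb1 (by omega) h)
    (fun h => hA.mid_mono_left hc hab ha1 ha2 hb2 (by omega) h)
    (fun h => hA.mid_mono_right hc hab ha2 hb1 hb2 (by omega) h)
  refine ⟨p, fun m hm i j hi hj => ?_⟩
  obtain ⟨c1, c2, c3, c4⟩ := hm
  have hi1 := hi.1
  have hi2 := hi.2.1
  have hj1 := hj.1
  have hj2 := hj.2.1
  have hmo := hA.mid_or hc hab hi hj
  have key : ∀ (b' : Bool) (v : ℝ), Wk b' v → (P.Btw (A a i) t (A b j) ↔ b' = true) →
      (P.Btw (A a i) s (A b j) → v ≤ 0) ∧ (P.Btw (A a i) t (A b j) → 0 ≤ v) := by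
    intro b' v hw hh
    constructor
    · intro h5
      apply hw.2
      have h6 := hmo.1 h5
      rw [hh] at h6
      simpa using h6
    · intro h5
      exact hw.1 (hh.1 h5)
  have hi3 : i = 1 ∨ i = 2 := by omega
  have hj3 : j = 1 ∨ j = 2 := by omega
  rcases hi3 with rfl | rfl <;> rcases hj3 with rfl | rfl
  · exact key _ _ c1 h1
  · exact key _ _ c2 h2
  · exact key _ _ c3 h3
  · exact key _ _ c4 h4

theorem Arms.midReal_three (hA : Arms G n A s t) (hc : P.Consistent) (hn : ∀ a, n a = 3) :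
    ∃ m, MidReal P n A s t m := by
  by_cases hall : ∀ c, IsMid P n A s t c 1 ∧ IsMid P n A s t c 2
  · obtain ⟨p, hp⟩ := hA.sgn_of_pat hc (a := 0) (b := 1) (by decide) (hn _) (hn _)
      (hall 0).1 (hall 0).2 (hall 1).1 (hall 1).2
    obtain ⟨q, hq⟩ := hA.sgn_of_pat hc (a := 0) (b := 2) (by decide) (hn _) (hn _)
      (hall 0).1 (hall 0).2 (hall 2).1 (hall 2).2
    obtain ⟨r, hr⟩ := hA.sgn_of_pat hc (a := 1) (b := 2) (by decide) (hn _) (hn _)
      (hall 1).1 (hall 1).2 (hall 2).1 (hall 2).2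
    obtain ⟨x1, x2, y1, y2, z1, z2, hx, hy, hz, c1, c2, c3⟩ := real222 p q r
    refine ⟨fun e i => if e = 0 then (if i = 1 then x1 else x2) else
      if e = 1 then (if i = 1 then y1 else y2) else (if i = 1 then z1 else z2), ?_⟩
    apply midReal_of_three (a := 0) (b := 1) (c := 2) (by decide)
    · exact hp _ (by simpa using c1)
    · exact hq _ (by simpa using c2)
    · exact hr _ (by simpa using c3)
    · intro e i hi hi'
      have h1 := hi.1
      have h2 := hi'.2.1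
      rw [hn e] at h2
      have h3 : i = 1 := by omega
      subst h3
      fin_cases e
      · simpa using hx
      · simpa using hy
      · simpa using hz
  · push Not at hall
    obtain ⟨c, hcc⟩ := hall
    have hone : ∀ i i', IsMid P n A s t c i → IsMid P n A s t c i' → i = i' := by
      intro i i' hi hi'
      have h1 := hi.1
      have h2 := hi.2.1
      have h3 := hi'.1
      have h4 := hi'.2.1
      rw [hn c] at h2 h4
      by_contra hne
      have : (i = 1 ∧ i' = 2) ∨ (i = 2 ∧ i' = 1) := by omega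
      rcases this with ⟨rfl, rfl⟩ | ⟨rfl, rfl⟩
      · exact hcc hi hi'
      · exact hcc hi' hi
    fin_cases c
    · exact hA.midReal_one hc (a := 1) (b := 2) (c := 0) (by decide) (by decide) (by decide)
        (by decide) hone
    · exact hA.midReal_one hc (a := 0) (b := 2) (c := 1) (by decide) (by decide) (by decide)
        (by decide) hone
    · exact hA.midReal_one hc (a := 0) (b := 1) (c := 2) (by decide) (by decide) (by decide)
        (by decide) hone

/-- `Θ_{3,3,3}` is metrizable -/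
theorem theta_three : Metrizable (theta ![3, 3, 3]) := by
  have hn : ∀ a, (![3, 3, 3] : Fin 3 → ℕ) a = 3 := by decide
  have hA := theta_arms ![3, 3, 3] (fun a => by rw [hn a]; omega)
  apply hA.metr (theta_edges _)
  intro P hP
  exact hA.midReal_three hP hn

end Pool.Agent.K7.H17.Theta
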